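import Pool.Agent.W133.DQ.StB

set_option autoImplicit false

open scoped ContDiff
open Set Filter Topology

/-! Project DQ, part CUT: properties of the cut-off functions. -/

namespace Pool.Agent.W585.DQ

open Pool.Agent.W133.DQ

lemma pl_smooth (a b : ℝ) : ContDiff ℝ ∞ (pl a b) := by
  unfold pl
  refine ContDiff.mul ?_ ?_
  · exact Real.smoothTransition.contDiff.comp ((contDiff_const.add contDiff_id).div_const _)
  · exact Real.smoothTransition.contDiff.comp ((contDiff_const.sub contDiff_id).div_const _)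

lemma pl_range (a b x : ℝ) : 0 ≤ pl a b x ∧ pl a b x ≤ 1 := by
  unfold pl
  exact ⟨mul_nonneg (Real.smoothTransition.nonneg _) (Real.smoothTransition.nonneg _),
    mul_le_one₀ (Real.smoothTransition.le_one _) (Real.smoothTransition.nonneg _)
      (Real.smoothTransition.le_one _)⟩

lemma pl_one {a b : ℝ} (hab : a < b) {x : ℝ} (hx : |x| ≤ a) : pl a b x = 1 := by
  unfold pl
  have h := abs_le.1 hx
  have hd : 0 < b - a := by linarith
  rw [Real.smoothTransition.one_of_one_le, Real.smoothTransition.one_of_one_le, one_mul]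
  · rw [le_div_iff₀ hd]
    linarith [h.2]
  · rw [le_div_iff₀ hd]
    linarith [h.1]

lemma pl_zero {a b : ℝ} (hab : a < b) {x : ℝ} (hx : b ≤ |x|) : pl a b x = 0 := by
  unfold pl
  have hd : 0 < b - a := by linarith
  rcases le_abs.1 hx with h | h
  · rw [Real.smoothTransition.zero_of_nonpos (x := (b - x) / (b - a)), mul_zero]
    exact div_nonpos_of_nonpos_of_nonneg (by linarith) hd.le
  · rw [Real.smoothTransition.zero_of_nonpos (x := (b + x) / (b - a)), zero_mul]
    exact div_nonpos_of_nonpos_of_nonneg (by linarith) hd.le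

lemma chi0_one {x : ℝ} (h1 : 3 / 10 ≤ x) (h2 : x ≤ 7 / 10) : chi0 x = 1 := by
  unfold chi0
  apply pl_one (by norm_num)
  rw [abs_le]
  constructor <;> linarith

lemma chi0_left {x : ℝ} (h1 : x ≤ 1 / 10) : chi0 x = 0 := by
  unfold chi0
  apply pl_zero (by norm_num)
  rw [le_abs]
  right
  linarith

lemma chi0_right {x : ℝ} (h1 : 9 / 10 ≤ x) : chi0 x = 0 := by
  unfold chi0
  apply pl_zero (by norm_num)
  rw [le_abs]
  left
  linarith

lemma chi0_smooth : ContDiff ℝ ∞ chi0 := by
  unfold chi0
  exact (pl_smooth _ _).comp (contDiff_id.sub contDiff_const)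

lemma chi_per (x : ℝ) : chi (x + 1) = chi x := by
  unfold chi
  rw [Int.fract_add_one]

lemma chi_near_int {x : ℝ} (k : ℤ) (h : |x - k| < 1 / 10) : chi x = 0 := by
  unfold chi
  have h' := abs_lt.1 h
  rcases le_or_gt (k : ℝ) x with hk | hk
  · have hf : ⌊x⌋ = k := by
      rw [Int.floor_eq_iff]
      exact ⟨hk, by linarith [h'.2]⟩
    apply chi0_left
    rw [Int.fract, hf]
    linarith [h'.2]
  · have hf : ⌊x⌋ = k - 1 := by
      rw [Int.floor_eq_iff]
      push_cast
      exact ⟨by linarith [h'.1], by linarith⟩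
    apply chi0_right
    rw [Int.fract, hf]
    push_cast
    linarith [h'.1]

lemma chi_smooth : ContDiff ℝ ∞ chi := by
  rw [contDiff_iff_contDiffAt]
  intro x0
  by_cases h : Int.fract x0 = 0
  · have h1 : chi =ᶠ[𝓝 x0] fun _ => (0 : ℝ) := by
      have h2 : Metric.ball x0 (1 / 10) ∈ 𝓝 x0 := Metric.ball_mem_nhds x0 (by norm_num)
      filter_upwards [h2] with x hx
      rw [Metric.mem_ball, Real.dist_eq] at hx
      apply chi_near_int ⌊x0⌋
      have h3 : (⌊x0⌋ : ℝ) = x0 := by
        have h4 := Int.floor_add_fract x0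
        rw [h, add_zero] at h4
        exact h4
      rw [h3]
      exact hx
    exact contDiffAt_const.congr_of_eventuallyEq h1
  · have hpos : 0 < Int.fract x0 := lt_of_le_of_ne (Int.fract_nonneg x0) (Ne.symm h)
    have hlt : (⌊x0⌋ : ℝ) < x0 := by
      have h4 := Int.floor_add_fract x0
      linarith
    have h1 : chi =ᶠ[𝓝 x0] fun x => chi0 (x - ⌊x0⌋) := by
      have h2 : Ioo (⌊x0⌋ : ℝ) (⌊x0⌋ + 1) ∈ 𝓝 x0 :=
        Ioo_mem_nhds hlt (Int.lt_floor_add_one x0)
      filter_upwards [h2] with x hx
      have hf : ⌊x⌋ = ⌊x0⌋ := by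
        rw [Int.floor_eq_iff]
        exact ⟨hx.1.le, hx.2⟩
      unfold chi
      rw [Int.fract, hf]
    exact ((chi0_smooth.comp (contDiff_id.sub contDiff_const)).contDiffAt).congr_of_eventuallyEq h1

lemma the0_smooth : ContDiff ℝ ∞ the0 := by
  unfold the0
  exact pl_smooth _ _

lemma the0_one {x : ℝ} (h : |x| ≤ 2 / 5) : the0 x = 1 := pl_one (by norm_num) h
lemma the0_zero {x : ℝ} (h : 4 / 5 ≤ |x|) : the0 x = 0 := pl_zero (by norm_num) h

lemma round_eq_of {x : ℝ} {k : ℤ} (h1 : (k : ℝ) - 1 / 2 ≤ x) (h2 : x < k + 1 / 2) :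
    round x = k := by
  rw [round_eq, Int.floor_eq_iff]
  constructor <;> linarith

lemma the_eq {x : ℝ} {k : ℤ} (h1 : (k : ℝ) - 1 / 2 ≤ x / 2) (h2 : x / 2 < k + 1 / 2) :
    the x = the0 (x - 2 * k) := by
  unfold the
  rw [round_eq_of h1 h2]
  congr 1
  ring

lemma the_per (x : ℝ) : the (x + 2) = the x := by
  unfold the
  have h : (x + 2) / 2 = x / 2 + 1 := by ring
  rw [h, round_add_one]
  congr 1
  push_cast
  ring

lemma the_smooth : ContDiff ℝ ∞ the := by
  rw [contDiff_iff_contDiffAt]
  intro x0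
  have hr := abs_sub_round (x0 / 2)
  rcases lt_or_eq_of_le hr with hlt | heq
  · have hlt' := abs_lt.1 hlt
    have h1 : the =ᶠ[𝓝 x0] fun x => the0 (x - 2 * (round (x0 / 2) : ℤ)) := by
      have h2 : Ioo (2 * (round (x0 / 2) : ℝ) - 1) (2 * (round (x0 / 2) : ℝ) + 1) ∈ 𝓝 x0 :=
        Ioo_mem_nhds (by linarith [hlt'.1]) (by linarith [hlt'.2])
      filter_upwards [h2] with x hx
      exact the_eq (by linarith [hx.1]) (by linarith [hx.2])
    exact ((the0_smooth.comp (contDiff_id.sub contDiff_const)).contDiffAt).congr_of_eventuallyEq h1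
  · have h1 : the =ᶠ[𝓝 x0] fun _ => (0 : ℝ) := by
      have h2 : Metric.ball x0 (1 / 5) ∈ 𝓝 x0 := Metric.ball_mem_nhds x0 (by norm_num)
      filter_upwards [h2] with x hx
      rw [Metric.mem_ball, Real.dist_eq] at hx
      have hx' := abs_lt.1 hx
      unfold the
      apply the0_zero
      by_contra hcon
      rw [not_le] at hcon
      have hcon' := abs_lt.1 hcon
      set k := round (x / 2) with hk
      set k0 := round (x0 / 2) with hk0
      -- x0/2 = k0 ± 1/2 and |x0/2 - k| < 1/2
      have h3 : -(1 / 2 : ℝ) < x0 / 2 - k := by linarith [hcon'.1, hx'.1, hx'.2]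
      have h4 : x0 / 2 - k < (1 / 2 : ℝ) := by linarith [hcon'.2, hx'.1, hx'.2]
      rcases (abs_eq (by norm_num : (0 : ℝ) ≤ 1 / 2)).1 heq with h5 | h5
      · have h6 : ((k0 - k : ℤ) : ℝ) < 0 := by push_cast; linarith
        have h7 : (-1 : ℝ) < ((k0 - k : ℤ) : ℝ) := by push_cast; linarith
        have h8 : k0 - k < 0 := by exact_mod_cast h6
        have h9 : (-1 : ℤ) < k0 - k := by exact_mod_cast h7
        omega
      · have h6 : ((k0 - k : ℤ) : ℝ) < 1 := by push_cast; linarith
        have h7 : (0 : ℝ) < ((k0 - k : ℤ) : ℝ) := by push_cast; linarith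
        have h8 : k0 - k < 1 := by exact_mod_cast h6
        have h9 : (0 : ℤ) < k0 - k := by exact_mod_cast h7
        omega
    exact contDiffAt_const.congr_of_eventuallyEq h1

lemma bdd_of_supp {f : ℝ → ℝ} (hf : ContDiff ℝ ∞ f) (R : ℝ) (h : ∀ x, R ≤ |x| → f x = 0) (r : ℕ) :
    ∃ C : ℝ, ∀ x, ‖iteratedFDeriv ℝ r f x‖ ≤ C := by
  have hs : HasCompactSupport f := by
    apply HasCompactSupport.of_support_subset_isCompact (isCompact_Icc (a := -R) (b := R))
    intro x hx
    by_contra hcon
    apply hx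
    apply h
    by_contra hlt
    rw [not_le] at hlt
    have := abs_lt.1 hlt
    exact hcon ⟨this.1.le, this.2.le⟩
  have hs' : HasCompactSupport (iteratedFDeriv ℝ r f) := hs.iteratedFDeriv r
  have hc : Continuous (iteratedFDeriv ℝ r f) :=
    hf.continuous_iteratedFDeriv (m := r) (by exact_mod_cast le_top)
  exact hs'.exists_bound_of_continuous hc

lemma bdd_of_per {f : ℝ → ℝ} (hf : ContDiff ℝ ∞ f) (c : ℝ) (hc0 : 0 < c)
    (h : ∀ x, f (x + c) = f x) (r : ℕ) :
    ∃ C : ℝ, ∀ x, ‖iteratedFDeriv ℝ r f x‖ ≤ C := by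
  have hc : Continuous (iteratedFDeriv ℝ r f) :=
    hf.continuous_iteratedFDeriv (m := r) (by exact_mod_cast le_top)
  have hper : Function.Periodic (iteratedFDeriv ℝ r f) c := by
    intro x
    rw [← iteratedFDeriv_comp_add_right]
    have h1 : (fun z => f (z + c)) = f := funext h
    rw [h1]
  obtain ⟨C, hC⟩ := (isCompact_Icc (a := (0 : ℝ)) (b := c)).exists_bound_of_continuousOn
    hc.continuousOn
  refine ⟨C, fun x => ?_⟩
  obtain ⟨y, hy, hxy⟩ := hper.exists_mem_Ico₀ hc0 x
  rw [hxy]
  exact hC y ⟨hy.1, hy.2.le⟩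

theorem cut : S_CUT := by
  refine ⟨?_, ?_, ?_, ?_⟩
  · intro a b ha hab
    exact ⟨pl_smooth a b, pl_range a b, fun x hx => pl_one hab hx, fun x hx => pl_zero hab hx⟩
  · refine ⟨chi_smooth, fun x => pl_range _ _ _, chi_per, ?_, ?_, ?_⟩
    · intro x h1 h2
      have hf : Int.fract x = x := Int.fract_eq_self.2 ⟨by linarith, by linarith⟩
      unfold chi
      rw [hf]
      exact chi0_one h1 h2
    · intro x hx
      have h := abs_le.1 hx
      rcases lt_or_ge x 0 with h0 | h0
      · have hf : ⌊x⌋ = -1 := by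
          rw [Int.floor_eq_iff]
          push_cast
          exact ⟨by linarith [h.1], by linarith⟩
        unfold chi
        apply chi0_right
        rw [Int.fract, hf]
        push_cast
        linarith [h.1]
      · have hf : Int.fract x = x := Int.fract_eq_self.2 ⟨h0, by linarith [h.2]⟩
        unfold chi
        rw [hf]
        exact chi0_left h.2
    · intro x h0 h1
      rcases lt_or_eq_of_le h1 with h | h
      · have hf : Int.fract x = x := Int.fract_eq_self.2 ⟨h0, h⟩
        unfold chi
        rw [hf]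
      · rw [h]
        unfold chi
        rw [Int.fract_one, chi0_left (by norm_num), chi0_right (by norm_num)]
  · refine ⟨the_smooth, fun x => pl_range _ _ _, the_per, ?_, ?_, ?_⟩
    · intro x hx
      have h := abs_le.1 hx
      rw [the_eq (k := 0) (by push_cast; linarith [h.1]) (by push_cast; linarith [h.2])]
      apply the0_one
      push_cast
      rwa [mul_zero, sub_zero]
    · intro x h1 h2
      rcases lt_or_ge x 1 with h | h
      · rw [the_eq (k := 0) (by push_cast; linarith) (by push_cast; linarith)]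
        apply the0_zero
        push_cast
        rw [mul_zero, sub_zero, le_abs]
        exact Or.inl h1
      · rw [the_eq (k := 1) (by push_cast; linarith) (by push_cast; linarith)]
        apply the0_zero
        push_cast
        rw [le_abs]
        right
        linarith
    · intro x hx
      have h := abs_le.1 hx
      rcases lt_or_eq_of_le h.2 with h1 | h1
      · rw [the_eq (k := 0) (by push_cast; linarith [h.1]) (by push_cast; linarith)]
        congr 1
        push_cast
        ring
      · rw [the_eq (k := 1) (by push_cast; linarith) (by push_cast; linarith), h1, the0_zero,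
          the0_zero]
        · norm_num
        · norm_num
  · intro r
    obtain ⟨C1, h1⟩ := bdd_of_per chi_smooth 1 one_pos chi_per r
    obtain ⟨C2, h2⟩ := bdd_of_per the_smooth 2 two_pos the_per r
    obtain ⟨C3, h3⟩ := bdd_of_supp chi0_smooth 1 (fun x hx => by
      rcases le_abs.1 hx with h | h
      · exact chi0_right (by linarith)
      · exact chi0_left (by linarith)) r
    obtain ⟨C4, h4⟩ := bdd_of_supp (f := kap) (pl_smooth _ _) (3 / 5)
      (fun x hx => pl_zero (by norm_num) hx) r
    obtain ⟨C5, h5⟩ := bdd_of_supp the0_smooth (4 / 5) (fun x hx => the0_zero hx) r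
    obtain ⟨C6, h6⟩ := bdd_of_supp (f := kap1) (pl_smooth _ _) (9 / 10)
      (fun x hx => pl_zero (by norm_num) hx) r
    have hn : ∀ {g : ℝ → ℝ} {D : ℝ}, (∀ x, ‖iteratedFDeriv ℝ r g x‖ ≤ D) → 0 ≤ D :=
      fun {g D} hg => (norm_nonneg _).trans (hg 0)
    have p1 := hn h1
    have p2 := hn h2
    have p3 := hn h3
    have p4 := hn h4
    have p5 := hn h5
    have p6 := hn h6
    refine ⟨C1 + C2 + C3 + C4 + C5 + C6, ?_, ?_, ?_, ?_, ?_, ?_⟩
    · intro x; linarith [h1 x]
    · intro x; linarith [h2 x]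
    · intro x; linarith [h3 x]
    · intro x; linarith [h4 x]
    · intro x; linarith [h5 x]
    · intro x; linarith [h6 x]

end Pool.Agent.W585.DQ

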