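import Pool.Agent.W133.DQ.StF

set_option autoImplicit false

open scoped ContDiff
open Set Filter Topology

/-! Project DQ, part LG: lifts of the elements of `GG` to the half plane. -/

namespace Pool.Agent.W585.DQ.LGP

open Pool.Agent.W133.DQ

/-- a continuous function with integer values on a connected space is constant -/
lemma int_const {X : Type} [TopologicalSpace X] [PreconnectedSpace X] {φ : X → ℝ}
    (hφ : Continuous φ) (h : ∀ x, ∃ n : ℤ, φ x = n) (x y : X) : φ x = φ y := by
  choose n hn using h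
  have h1 : Continuous n := by
    rw [Int.isClosedEmbedding_coe_real.isEmbedding.isInducing.continuous_iff]
    have : ((fun z : ℤ => (z : ℝ)) ∘ n) = φ := by
      funext z
      exact (hn z).symm
    rw [this]
    exact hφ
  have h2 : n x = n y := PreconnectedSpace.constant ‹_› h1
  rw [hn, hn, h2]

noncomputable def uu (x : ℝ) : P2 := (Real.cos (2 * Real.pi * x), Real.sin (2 * Real.pi * x))

noncomputable def toC : P2 ≃L[ℝ] ℂ := Complex.equivRealProdCLM.symm

lemma toC_re (p : P2) : (toC p).re = p.1 := by simp [toC]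
lemma toC_im (p : P2) : (toC p).im = p.2 := by simp [toC]

noncomputable def cl (r : ℝ) : ℝ := max 0 (min r 1)

lemma cl_mem (r : ℝ) : 0 ≤ cl r ∧ cl r ≤ 1 := by
  unfold cl
  constructor
  · exact le_max_left _ _
  · exact max_le (by norm_num) (min_le_right _ _)

lemma cl_eq {r : ℝ} (h0 : 0 ≤ r) (h1 : r ≤ 1) : cl r = r := by
  unfold cl
  rw [min_eq_left h1, max_eq_right h0]

lemma cl_cont : Continuous cl := by unfold cl; fun_prop

noncomputable def hat (G : P2 → P2) (r : ℝ) (v : P2) : P2 :=
  ∫ s in (0:ℝ)..1, fderiv ℝ G ((s * r) • v) v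

lemma hat_mul {G : P2 → P2} (hG : ContDiff ℝ ∞ G) (h0 : G 0 = 0) (r : ℝ) (v : P2) :
    r • hat G r v = G (r • v) := by
  have hcf : Continuous (fderiv ℝ G) := hG.continuous_fderiv (by simp)
  have h1 := intervalIntegral.integral_eq_sub_of_hasDerivAt (a := 0) (b := 1)
    (f := fun s : ℝ => G ((s * r) • v)) (f' := fun s => fderiv ℝ G ((s * r) • v) (r • v))
    (fun s _ => by
      have h2 : HasDerivAt (fun s : ℝ => (s * r) • v) (r • v) s := by
        have := ((hasDerivAt_id s).mul_const r).smul_const v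
        simpa using this
      have h3 : HasFDerivAt G (fderiv ℝ G ((s * r) • v)) ((s * r) • v) :=
        ((hG.differentiable (by simp)) _).hasFDerivAt
      exact h3.comp_hasDerivAt s h2)
    (by
      apply Continuous.intervalIntegrable
      exact (hcf.comp (by fun_prop)).clm_apply continuous_const)
  simp only [map_smul, intervalIntegral.integral_smul, one_mul, zero_mul, zero_smul, h0,
    sub_zero] at h1
  exact h1

lemma hat_zero (G : P2 → P2) (v : P2) : hat G 0 v = fderiv ℝ G 0 v := by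
  simp [hat]

lemma hat_cont {G : P2 → P2} (hG : ContDiff ℝ ∞ G) : Continuous (fun q : ℝ × P2 => hat G q.1 q.2) := by
  have hcf : Continuous (fderiv ℝ G) := hG.continuous_fderiv (by simp)
  unfold hat
  apply intervalIntegral.continuous_parametric_intervalIntegral_of_continuous'
  exact (hcf.comp (by fun_prop)).clm_apply (by fun_prop)

lemma uu_cont : Continuous uu := by unfold uu; fun_prop

lemma uu_one (x : ℝ) : uu (x + 1) = uu x := by
  unfold uu
  rw [show 2 * Real.pi * (x + 1) = 2 * Real.pi * x + 2 * Real.pi by ring, Real.cos_add_two_pi,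
    Real.sin_add_two_pi]

lemma uu_half (x : ℝ) : uu (x + 1 / 2) = - uu x := by
  unfold uu
  rw [show 2 * Real.pi * (x + 1 / 2) = 2 * Real.pi * x + Real.pi by ring, Real.cos_add_pi,
    Real.sin_add_pi]
  rfl

lemma uu_sq (x : ℝ) : (uu x).1 ^ 2 + (uu x).2 ^ 2 = 1 := by
  unfold uu
  exact Real.cos_sq_add_sin_sq _

lemma pii_coe (p : HH) : (pii p : P2) = Real.exp p.1.2 • uu p.1.1 := by
  unfold pii uu
  simp

lemma det_eq (A : P2 →L[ℝ] P2) : A.det = (A (1, 0)).1 * (A (0, 1)).2 - (A (0, 1)).1 * (A (1, 0)).2 := by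
  have h1 : A.det = LinearMap.det (A : P2 →ₗ[ℝ] P2) := rfl
  rw [h1, ← LinearMap.det_toMatrix (Module.Basis.finTwoProd ℝ), Matrix.det_fin_two]
  simp [LinearMap.toMatrix_apply]

lemma A_uu (A : P2 →L[ℝ] P2) (v : P2) : A v = v.1 • A (1, 0) + v.2 • A (0, 1) := by
  have : v = v.1 • ((1, 0) : P2) + v.2 • ((0, 1) : P2) := by
    ext <;> simp
  conv_lhs => rw [this]
  rw [map_add, map_smul, map_smul]

/-- cross product identity -/
lemma cross (A : P2 →L[ℝ] P2) (v w : P2) :
    (A v).1 * (A w).2 - (A v).2 * (A w).1 = A.det * (v.1 * w.2 - v.2 * w.1) := by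
  rw [det_eq, A_uu A v, A_uu A w]
  simp
  ring

/-- derivative of a continuous logarithm -/
lemma lift_deriv {f ℓ : ℝ → ℂ} {f' : ℂ} {x : ℝ} (hℓ : Continuous ℓ) (h : ∀ x, Complex.exp (ℓ x) = f x)
    (hf : HasDerivAt f f' x) : HasDerivAt ℓ (f' / f x) x := by
  have hne : f x ≠ 0 := by rw [← h]; exact Complex.exp_ne_zero _
  have h1 : HasDerivAt (fun t => f t / f x) (f' / f x) x := hf.div_const _
  have h2 : HasDerivAt (fun t => Complex.log (f t / f x)) (f' / f x / (f x / f x)) x := by
    apply h1.clog_real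
    rw [div_self hne]
    exact Complex.one_mem_slitPlane
  rw [div_self hne, div_one] at h2
  have h3 := h2.const_add (ℓ x)
  refine h3.congr_of_eventuallyEq ?_
  have h4 : Continuous (fun t => |(ℓ t - ℓ x).im|) := by fun_prop
  have h5 : ∀ᶠ t in 𝓝 x, |(ℓ t - ℓ x).im| < Real.pi := by
    apply h4.continuousAt.eventually_lt continuousAt_const
    simpa using Real.pi_pos
  filter_upwards [h5] with t ht
  have h6 : f t / f x = Complex.exp (ℓ t - ℓ x) := by
    rw [Complex.exp_sub, h, h]
  rw [abs_lt] at ht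
  rw [h6, Complex.log_exp ht.1 ht.2.le]
  ring

lemma uu_deriv (x : ℝ) : HasDerivAt uu ((2 * Real.pi) • ((-(uu x).2, (uu x).1) : P2)) x := by
  have h1 : HasDerivAt (fun x : ℝ => 2 * Real.pi * x) (2 * Real.pi) x := by
    simpa using (hasDerivAt_id x).const_mul (2 * Real.pi)
  have h2 := h1.cos.prodMk h1.sin
  refine h2.congr_deriv ?_
  unfold uu
  ext <;> simp <;> ring

section rot

variable {A : P2 →L[ℝ] P2} {ℓ : ℝ → ℂ}

lemma al_deriv (hℓ : Continuous ℓ) (h : ∀ x, Complex.exp (ℓ x) = toC (A (uu x))) (x : ℝ) :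
    HasDerivAt (fun x => (ℓ x).im)
      (2 * Real.pi * A.det / Complex.normSq (toC (A (uu x)))) x := by
  have h1 : HasDerivAt (fun x => toC (A (uu x)))
      (toC (A ((2 * Real.pi) • ((-(uu x).2, (uu x).1) : P2)))) x := by
    have h2 : HasDerivAt (fun x => A (uu x)) (A ((2 * Real.pi) • ((-(uu x).2, (uu x).1) : P2))) x :=
      A.hasFDerivAt.comp_hasDerivAt x (uu_deriv x)
    exact toC.toContinuousLinearMap.hasFDerivAt.comp_hasDerivAt x h2
  have h3 := lift_deriv hℓ h h1
  have h4 : HasDerivAt (fun x => (ℓ x).im)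
      ((toC (A ((2 * Real.pi) • ((-(uu x).2, (uu x).1) : P2)))) / (toC (A (uu x)))).im x :=
    Complex.imCLM.hasFDerivAt.comp_hasDerivAt x h3
  refine h4.congr_deriv ?_
  rw [Complex.div_im, toC_re, toC_im, toC_re, toC_im]
  have h5 := cross A (uu x) ((2 * Real.pi) • ((-(uu x).2, (uu x).1) : P2))
  have h6 := uu_sq x
  rw [← sub_div]
  congr 1
  simp only [Prod.smul_fst, Prod.smul_snd, smul_eq_mul] at h5
  have h7 : (uu x).1 * (2 * Real.pi * (uu x).1) - (uu x).2 * (2 * Real.pi * -(uu x).2) = 2 * Real.pi := by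
    linear_combination 2 * Real.pi * h6
  rw [h7] at h5
  linarith

lemma al_mono (hA : 0 < A.det) (hℓ : Continuous ℓ) (h : ∀ x, Complex.exp (ℓ x) = toC (A (uu x))) :
    StrictMono (fun x => (ℓ x).im) := by
  apply strictMono_of_hasDerivAt_pos (al_deriv hℓ h)
  intro x
  apply div_pos
  · have := Real.pi_pos
    positivity
  · rw [Complex.normSq_pos, ← h]
    exact Complex.exp_ne_zero _

lemma exp_eq_neg {z w : ℂ} (h : Complex.exp z = - Complex.exp w) :
    ∃ n : ℤ, z.im = w.im + Real.pi + 2 * Real.pi * n := by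
  have h1 : Complex.exp z = Complex.exp (w + Real.pi * Complex.I) := by
    rw [Complex.exp_add, Complex.exp_pi_mul_I, h]
    ring
  rw [Complex.exp_eq_exp_iff_exists_int] at h1
  obtain ⟨n, hn⟩ := h1
  refine ⟨n, ?_⟩
  rw [hn]
  simp
  ring

lemma al_half (hA : 0 < A.det) (hℓ : Continuous ℓ) (h : ∀ x, Complex.exp (ℓ x) = toC (A (uu x)))
    (x : ℝ) : (ℓ (x + 1 / 2)).im = (ℓ x).im + Real.pi := by
  have hπ := Real.pi_pos
  have hm := al_mono hA hℓ h
  have h1 : Complex.exp (ℓ (x + 1 / 2)) = - Complex.exp (ℓ x) := by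
    rw [h, h, uu_half, map_neg, map_neg]
  obtain ⟨n, hn⟩ := exp_eq_neg h1
  have h2 : (ℓ x).im < (ℓ (x + 1 / 2)).im := hm (by linarith)
  have hn0 : 0 ≤ n := by
    by_contra hc
    push Not at hc
    have hc' : (n : ℝ) ≤ -1 := by exact_mod_cast Int.le_sub_one_of_lt hc
    nlinarith
  rcases hn0.eq_or_lt with h0 | h0
  · rw [hn, ← h0]
    simp
  exfalso
  have h0' : (1 : ℝ) ≤ n := by exact_mod_cast h0
  have hcont : Continuous (fun x => (ℓ x).im) := Complex.continuous_im.comp hℓ
  have h3 : (ℓ x).im + Real.pi ∈ Set.Icc ((ℓ x).im) ((ℓ (x + 1 / 2)).im) := by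
    constructor
    · linarith
    · rw [hn]
      nlinarith
  obtain ⟨y, hy, hy2⟩ := intermediate_value_Icc (by linarith : x ≤ x + 1 / 2) hcont.continuousOn h3
  simp only at hy2
  have hy3 : x < y := by
    rcases hy.1.eq_or_lt with h4 | h4
    · rw [← h4] at hy2
      linarith
    · exact h4
  have hy4 : y < x + 1 / 2 := by
    rcases hy.2.eq_or_lt with h4 | h4
    · rw [h4, hn] at hy2
      nlinarith
    · exact h4
  -- exp (ℓ y) = - e^ρ exp (ℓ x)
  have h5 : Complex.exp (ℓ y) = -(Real.exp ((ℓ y).re - (ℓ x).re) : ℂ) * Complex.exp (ℓ x) := by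
    have h6 : ℓ y = ℓ x + (((ℓ y).re - (ℓ x).re : ℝ) : ℂ) + Real.pi * Complex.I := by
      apply Complex.ext
      · simp
      · simp [hy2]
    conv_lhs => rw [h6]
    rw [Complex.exp_add, Complex.exp_add, Complex.exp_pi_mul_I, Complex.ofReal_exp]
    ring
  rw [h, h] at h5
  have h6 : toC (A (uu y)) = toC (-(Real.exp ((ℓ y).re - (ℓ x).re)) • A (uu x)) := by
    rw [h5, map_smul, Complex.real_smul]
    push_cast
    ring
  have h7 := toC.injective h6
  have h8 := cross A (uu x) (uu y)
  rw [h7] at h8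
  simp only [Prod.smul_fst, Prod.smul_snd, smul_eq_mul] at h8
  have h9 : A.det * ((uu x).1 * (uu y).2 - (uu x).2 * (uu y).1) = 0 := by
    rw [← h8]
    ring
  have h10 : (uu x).1 * (uu y).2 - (uu x).2 * (uu y).1 = Real.sin (2 * Real.pi * (y - x)) := by
    unfold uu
    rw [show 2 * Real.pi * (y - x) = 2 * Real.pi * y - 2 * Real.pi * x by ring, Real.sin_sub]
    ring
  rw [h10] at h9
  have h11 : 0 < Real.sin (2 * Real.pi * (y - x)) := by
    apply Real.sin_pos_of_pos_of_lt_pi
    · have : 0 < y - x := by linarith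
      positivity
    · nlinarith
  have h12 := mul_pos hA h11
  linarith

lemma al_one (hA : 0 < A.det) (hℓ : Continuous ℓ) (h : ∀ x, Complex.exp (ℓ x) = toC (A (uu x)))
    (x : ℝ) : (ℓ (x + 1)).im = (ℓ x).im + 2 * Real.pi := by
  have h1 := al_half hA hℓ h x
  have h2 := al_half hA hℓ h (x + 1 / 2)
  rw [show x + 1 / 2 + 1 / 2 = x + 1 by ring] at h2
  linarith

end rot

end Pool.Agent.W585.DQ.LGP

namespace Pool.Agent.W585.DQ

open Pool.Agent.W133.DQ LGP

theorem lg (hB : S_BDRY) : S_LG := by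
  intro g hg
  obtain ⟨⟨G, hG, hgG, hdet⟩, hginv, hg0⟩ := hg
  have hG0 : G 0 = 0 := by
    have h1 := hgG dO
    rw [hg0] at h1
    exact h1.symm
  set A := fderiv ℝ G 0 with hA
  have hAdet : 0 < A.det := hdet dO
  have hπ := Real.pi_pos
  -- nonvanishing on the punctured disk
  have hgne : ∀ p : DD, (p : P2) ≠ 0 → (g p : P2) ≠ 0 := by
    intro p hp h1
    apply hp
    have h2 : g p = g dO := by
      rw [hg0]
      exact Subtype.ext h1
    have h3 := g.injective h2
    rw [h3]
    rfl
  have huu : ∀ x, uu x ≠ 0 := by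
    intro x hx
    have := uu_sq x
    rw [hx] at this
    simp at this
  let Z : C(ℝ × ℝ, ℂ) := ⟨fun q => toC (hat G (cl q.2) (uu q.1)), by
    apply toC.continuous.comp
    exact (hat_cont hG).comp ((cl_cont.comp continuous_snd).prodMk (uu_cont.comp continuous_fst))⟩
  have hZ : ∀ q, Z q = toC (hat G (cl q.2) (uu q.1)) := fun q => rfl
  have hZne : ∀ q, Z q ∈ ({0}ᶜ : Set ℂ) := by
    intro q hq
    have h1 : hat G (cl q.2) (uu q.1) = 0 := by
      apply toC.injective
      rw [map_zero]
      exact hq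
    obtain ⟨hc0, hc1⟩ := cl_mem q.2
    rcases hc0.eq_or_lt with h2 | h2
    · rw [← h2, hat_zero] at h1
      have h3 := cross A (uu q.1) ((-(uu q.1).2, (uu q.1).1) : P2)
      rw [← hA] at h1
      rw [h1] at h3
      simp only [Prod.fst_zero, Prod.snd_zero, zero_mul, sub_zero] at h3
      have h4 := uu_sq q.1
      have h5 : A.det * 1 = 0 := by
        rw [← h4]
        linarith
      linarith
    · have h3 := hat_mul hG hG0 (cl q.2) (uu q.1)
      rw [h1, smul_zero] at h3
      have h4 : (cl q.2 • uu q.1).1 ^ 2 + (cl q.2 • uu q.1).2 ^ 2 ≤ 1 := by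
        have h5 := uu_sq q.1
        simp only [Prod.smul_fst, Prod.smul_snd, smul_eq_mul]
        have h6 : (cl q.2 * (uu q.1).1) ^ 2 + (cl q.2 * (uu q.1).2) ^ 2 = cl q.2 ^ 2 := by
          linear_combination cl q.2 ^ 2 * h5
        rw [h6]
        nlinarith
      have h5 := hgG ⟨cl q.2 • uu q.1, h4⟩
      simp only at h5
      rw [← h3] at h5
      exact hgne _ (smul_ne_zero h2.ne' (huu _)) h5
  obtain ⟨L, ⟨-, hL⟩, -⟩ := Complex.isCoveringMapOn_exp.existsUnique_continuousMap_lifts Z
    (a₀ := (0, 0)) (e₀ := Complex.log (Z (0, 0))) (Complex.exp_log (hZne (0, 0))) hZne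
  have hL' : ∀ q, Complex.exp (L q) = Z q := fun q => congrFun hL q
  have hLc : Continuous L := L.continuous
  -- the boundary value at the puncture
  have hℓ : ∀ x : ℝ, Complex.exp (L (x, 0)) = toC (A (uu x)) := by
    intro x
    rw [hL', hZ]
    simp only
    rw [cl_eq le_rfl zero_le_one, hat_zero]
  have hℓc : Continuous (fun x : ℝ => L (x, 0)) := hLc.comp (by fun_prop)
  -- periodicity
  have hint : ∀ q : ℝ × ℝ, ∃ n : ℤ, L (q.1 + 1, q.2) = L q + n * (2 * Real.pi * Complex.I) := by
    intro q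
    have h1 : Complex.exp (L (q.1 + 1, q.2)) = Complex.exp (L q) := by
      rw [hL', hL', hZ, hZ]
      simp only [uu_one]
    exact Complex.exp_eq_exp_iff_exists_int.1 h1
  have hper : ∀ q : ℝ × ℝ, L (q.1 + 1, q.2) = L q + 2 * Real.pi * Complex.I := by
    intro q
    have hφc : Continuous (fun q : ℝ × ℝ => (L (q.1 + 1, q.2) - L q).im / (2 * Real.pi)) := by
      have h1 : Continuous (fun q : ℝ × ℝ => L (q.1 + 1, q.2)) := hLc.comp (by fun_prop)
      exact (Complex.continuous_im.comp (h1.sub hLc)).div_const _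
    have h2 := int_const hφc (fun q => by
      obtain ⟨n, hn⟩ := hint q
      refine ⟨n, ?_⟩
      rw [hn]
      simp) q (0, 0)
    simp only at h2
    have h3 := al_one hAdet hℓc hℓ 0
    rw [Complex.sub_im, Complex.sub_im, h3] at h2
    obtain ⟨n, hn⟩ := hint q
    rw [hn] at h2
    have h4 : (n : ℝ) = 1 := by
      have h5 : ((L q + n * (2 * Real.pi * Complex.I)).im - (L q).im) = n * (2 * Real.pi) := by
        simp
      rw [h5] at h2
      have h6 : (L ((0 : ℝ), (0 : ℝ))).im + 2 * Real.pi - (L ((0 : ℝ), (0 : ℝ))).im = 2 * Real.pi := by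
        ring
      rw [h6, div_self (by positivity)] at h2
      field_simp at h2
      exact h2
    have h7 : n = 1 := by exact_mod_cast h4
    rw [hn, h7]
    simp
  -- the key formula
  have hkey : ∀ p : HH, toC (g (pii p)) =
      Complex.exp (p.1.2 + L (p.1.1, Real.exp p.1.2)) := by
    intro p
    have hr0 := Real.exp_pos p.1.2
    have hr1 : Real.exp p.1.2 ≤ 1 := Real.exp_le_one_iff.2 p.2
    rw [hgG, pii_coe, ← hat_mul hG hG0, map_smul, Complex.exp_add, hL', hZ]
    simp only
    rw [cl_eq hr0.le hr1, Complex.real_smul, Complex.ofReal_exp]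
  have hgp : ∀ p : HH, (g (pii p) : P2) = Real.exp (p.1.2 + (L (p.1.1, Real.exp p.1.2)).re) •
      uu ((L (p.1.1, Real.exp p.1.2)).im / (2 * Real.pi)) := by
    intro p
    apply toC.injective
    rw [hkey]
    apply Complex.ext
    · rw [toC_re, Complex.exp_re]
      unfold uu
      simp
      congr 1
      field_simp
    · rw [toC_im, Complex.exp_im]
      unfold uu
      simp
      congr 1
      field_simp
  have hnq : ∀ p : HH, nq (g (pii p)) = Real.exp (p.1.2 + (L (p.1.1, Real.exp p.1.2)).re) ^ 2 := by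
    intro p
    unfold nq
    rw [hgp]
    have h1 := uu_sq ((L (p.1.1, Real.exp p.1.2)).im / (2 * Real.pi))
    simp only [Prod.smul_fst, Prod.smul_snd, smul_eq_mul]
    linear_combination (Real.exp (p.1.2 + (L (p.1.1, Real.exp p.1.2)).re)) ^ 2 * h1
  have hneg : ∀ p : HH, p.1.2 + (L (p.1.1, Real.exp p.1.2)).re ≤ 0 := by
    intro p
    have h1 : nq (g (pii p)) ≤ 1 := (g (pii p)).2
    rw [hnq] at h1
    have h2 : Real.exp (p.1.2 + (L (p.1.1, Real.exp p.1.2)).re) ≤ 1 := by
      have h3 := Real.exp_pos (p.1.2 + (L (p.1.1, Real.exp p.1.2)).re)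
      nlinarith
    exact Real.exp_le_one_iff.1 h2
  set k : HH → HH := fun p => ⟨((L (p.1.1, Real.exp p.1.2)).im / (2 * Real.pi),
    p.1.2 + (L (p.1.1, Real.exp p.1.2)).re), hneg p⟩ with hk
  have k1 : ∀ p, (k p).1.1 = (L (p.1.1, Real.exp p.1.2)).im / (2 * Real.pi) := fun p => rfl
  have k2 : ∀ p, (k p).1.2 = p.1.2 + (L (p.1.1, Real.exp p.1.2)).re := fun p => rfl
  have hLp : Continuous (fun p : HH => L (p.1.1, Real.exp p.1.2)) := by
    apply hLc.comp
    fun_prop
  have hkc : Continuous k := by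
    apply Continuous.subtype_mk
    apply Continuous.prodMk
    · exact (Complex.continuous_im.comp hLp).div_const _
    · exact (by fun_prop : Continuous (fun p : HH => p.1.2)).add (Complex.continuous_re.comp hLp)
  have hpk : ∀ p, pii (k p) = g (pii p) := by
    intro p
    apply Subtype.ext
    rw [hgp, pii_coe]
  have hkT : ∀ p, k (hT 1 p) = hT 1 (k p) := by
    intro p
    have h1 := hper (p.1.1, Real.exp p.1.2)
    simp only at h1
    apply Subtype.ext
    apply Prod.ext
    · rw [hT_coe, k1, hT_coe]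
      simp only
      rw [h1, k1]
      simp
      field_simp
    · rw [hT_coe, k2, hT_coe]
      simp only
      rw [h1, k2]
      simp
  have hac : Continuous (fun x : ℝ => (L (x, 0)).im / (2 * Real.pi)) :=
    (Complex.continuous_im.comp hℓc).div_const _
  have ham : Monotone (fun x : ℝ => (L (x, 0)).im / (2 * Real.pi)) := by
    intro x y hxy
    have := (al_mono hAdet hℓc hℓ).monotone hxy
    simp only at this ⊢
    exact div_le_div_of_nonneg_right this (by positivity)
  have ha1 : ∀ x : ℝ, (L (x + 1, 0)).im / (2 * Real.pi) = (L (x, 0)).im / (2 * Real.pi) + 1 := by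
    intro x
    have h1 := hper (x, 0)
    simp only at h1
    rw [h1]
    simp
    field_simp
  have hbd : ∀ p : HH, p.1.2 = 0 → (k p).1.2 = 0 := by
    intro p hp
    have h1 : nq (pii p) = 1 := by
      unfold nq
      rw [pii_coe, hp]
      have := uu_sq p.1.1
      simpa using this
    have h2 := (hB g ⟨⟨G, hG, hgG, hdet⟩, by assumption, hg0⟩ (pii p)).1 h1
    rw [hnq, ← k2] at h2
    have h3 := Real.exp_pos (k p).1.2
    have h4 : Real.exp (k p).1.2 = 1 := by nlinarith
    rwa [Real.exp_eq_one_iff] at h4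
  -- boundary monotonicity
  set E : ℝ → ℝ := fun x => (k (bp x)).1.1 with hE
  have hEc : Continuous E := by
    have h1 : Continuous (fun x : ℝ => bp x) := by
      apply Continuous.subtype_mk
      fun_prop
    exact continuous_fst.comp (continuous_subtype_val.comp (hkc.comp h1))
  have hE1 : ∀ x, E (x + 1) = E x + 1 := by
    intro x
    have h1 : bp (x + 1) = hT 1 (bp x) := rfl
    simp only [hE]
    rw [h1, hkT, hT_coe]
  have hEn : ∀ (x : ℝ) (n : ℤ), E (x + n) = E x + n := by
    intro x n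
    have hp : Function.Periodic (fun x => E x - x) 1 := by
      intro x
      simp only
      rw [hE1]
      ring
    have h1 := (hp.int_mul n) x
    simp only [mul_one] at h1
    linarith
  have hEinj : Function.Injective E := by
    intro x y hxy
    have h1 : k (bp x) = k (bp y) := by
      apply Subtype.ext
      apply Prod.ext
      · exact hxy
      · rw [hbd (bp x) rfl, hbd (bp y) rfl]
    have h2 : g (pii (bp x)) = g (pii (bp y)) := by rw [← hpk, ← hpk, h1]
    have h3 := congrArg (fun q : DD => (q : P2)) (g.injective h2)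
    simp only [pii_coe] at h3
    have h4 : uu x = uu y := by
      have h5 : Real.exp (bp x).1.2 = 1 := Real.exp_zero
      have h6 : Real.exp (bp y).1.2 = 1 := Real.exp_zero
      rw [h5, h6, one_smul, one_smul] at h3
      exact h3
    have h5 : Real.cos (2 * Real.pi * (x - y)) = 1 := by
      have h6 := uu_sq y
      unfold uu at h4 h6
      rw [Prod.mk.injEq] at h4
      rw [show 2 * Real.pi * (x - y) = 2 * Real.pi * x - 2 * Real.pi * y by ring, Real.cos_sub,
        h4.1, h4.2]
      simp only at h6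
      linarith
    rw [Real.cos_eq_one_iff] at h5
    obtain ⟨n, hn⟩ := h5
    have h6 : x = y + n := by
      have h7 : (2 * Real.pi) * (n - (x - y)) = 0 := by linarith
      rcases mul_eq_zero.1 h7 with h8 | h8
      · exfalso
        linarith
      · linarith
    have h7 := hEn y n
    rw [← h6, hxy] at h7
    have h8 : (n : ℝ) = 0 := by linarith
    rw [h6, h8, add_zero]
  have hEm : Monotone E := by
    rcases hEc.strictMono_of_inj hEinj with h1 | h1
    · exact h1.monotone
    · exfalso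
      have h2 := h1 (show (0 : ℝ) < 0 + 1 by norm_num)
      rw [hE1] at h2
      linarith
  -- uniform limits
  have hpern : ∀ (x : ℝ) (n : ℤ) (r : ℝ), L (x + n, r) = L (x, r) + n * (2 * Real.pi * Complex.I) := by
    intro x n r
    have hp : Function.Periodic (fun x : ℝ => L (x, r) - x * (2 * Real.pi * Complex.I)) 1 := by
      intro x
      have h1 := hper (x, r)
      simp only at h1 ⊢
      rw [h1]
      push_cast
      ring
    have h1 := (hp.int_mul n) x
    simp only [mul_one] at h1
    push_cast at h1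
    linear_combination h1
  have hfr : ∀ x : ℝ, Int.fract x + (⌊x⌋ : ℝ) = x := fun x => Int.fract_add_floor x
  have hfrm : ∀ x : ℝ, Int.fract x ∈ Set.Icc (0 : ℝ) 1 := fun x =>
    ⟨Int.fract_nonneg x, (Int.fract_lt_one x).le⟩
  have h9 : ∀ ε : ℝ, 0 < ε → ∃ l : ℝ, ∀ p : HH, p.1.2 ≤ l →
      |(k p).1.1 - (L (p.1.1, 0)).im / (2 * Real.pi)| < ε := by
    intro ε hε
    have h1 : ∀ᶠ r in 𝓝 (0 : ℝ), ∀ x ∈ Set.Icc (0 : ℝ) 1,
        |(L (x, r)).im / (2 * Real.pi) - (L (x, 0)).im / (2 * Real.pi)| < ε := by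
      apply isCompact_Icc.eventually_forall_of_forall_eventually
        (P := fun r x => |(L (x, r)).im / (2 * Real.pi) - (L (x, 0)).im / (2 * Real.pi)| < ε)
      intro x hx
      have hc : Continuous (fun z : ℝ × ℝ =>
          |(L (z.2, z.1)).im / (2 * Real.pi) - (L (z.2, 0)).im / (2 * Real.pi)|) := by
        have e1 : Continuous (fun z : ℝ × ℝ => L (z.2, z.1)) := hLc.comp (by fun_prop)
        have e2 : Continuous (fun z : ℝ × ℝ => L (z.2, 0)) := hLc.comp (by fun_prop)
        exact (((Complex.continuous_im.comp e1).div_const _).sub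
          ((Complex.continuous_im.comp e2).div_const _)).abs
      apply hc.continuousAt.eventually_lt continuousAt_const
      simpa using hε
    obtain ⟨δ, hδ, hδ2⟩ := Metric.eventually_nhds_iff.1 h1
    refine ⟨Real.log (δ / 2), fun p hp => ?_⟩
    have h2 : Real.exp p.1.2 < δ := by
      have h3 : Real.exp p.1.2 ≤ δ / 2 := by
        rw [← Real.le_log_iff_exp_le (by positivity)]
        exact hp
      linarith
    have h3 := hδ2 (y := Real.exp p.1.2) (by
      rw [Real.dist_eq, sub_zero, abs_of_pos (Real.exp_pos _)]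
      exact h2) (Int.fract p.1.1) (hfrm _)
    have h4 := hpern (Int.fract p.1.1) ⌊p.1.1⌋ (Real.exp p.1.2)
    have h5 := hpern (Int.fract p.1.1) ⌊p.1.1⌋ 0
    rw [hfr] at h4 h5
    rw [k1, h4, h5]
    have h6 : ∀ z : ℂ, (z + ⌊p.1.1⌋ * (2 * Real.pi * Complex.I)).im / (2 * Real.pi)
        = z.im / (2 * Real.pi) + ⌊p.1.1⌋ := by
      intro z
      simp
      field_simp
    rw [h6, h6]
    rw [add_sub_add_right_eq_sub]
    exact h3
  have h10 : ∀ K : ℝ, ∃ l : ℝ, ∀ p : HH, p.1.2 ≤ l → (k p).1.2 ≤ K := by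
    intro K
    obtain ⟨C, hC⟩ := ((isCompact_Icc (a := (0 : ℝ)) (b := 1)).prod
      (isCompact_Icc (a := (0 : ℝ)) (b := 1))).exists_bound_of_continuousOn
      (f := fun z => (L z).re) (Complex.continuous_re.comp hLc).continuousOn
    refine ⟨K - C, fun p hp => ?_⟩
    have h1 := hC (Int.fract p.1.1, Real.exp p.1.2) ⟨hfrm _, (Real.exp_pos _).le,
      Real.exp_le_one_iff.2 p.2⟩
    simp only [Real.norm_eq_abs] at h1
    have h2 := (abs_le.1 h1).2
    have h4 := hpern (Int.fract p.1.1) ⌊p.1.1⌋ (Real.exp p.1.2)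
    rw [hfr] at h4
    rw [k2, h4]
    have h5 : (L (Int.fract p.1.1, Real.exp p.1.2) + ⌊p.1.1⌋ * (2 * Real.pi * Complex.I)).re
        = (L (Int.fract p.1.1, Real.exp p.1.2)).re := by
      simp
    rw [h5]
    linarith
  exact ⟨k, fun x => (L (x, 0)).im / (2 * Real.pi), hkc, hpk, hkT, hac, ham, ha1, hEm, hbd, h9, h10⟩

end Pool.Agent.W585.DQ

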