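import Pool.Agent.W133.DQ.StC

set_option autoImplicit false

open scoped ContDiff
open Set Filter Topology

/-! Project DQ, part SER: smoothness of the Sternberg series. -/

namespace Pool.Agent.W585.DQ.SERP

open Pool.Agent.W133.DQ

section loc

variable {E E₂ V G : Type} [NormedAddCommGroup E] [NormedSpace ℝ E]
  [NormedAddCommGroup E₂] [NormedSpace ℝ E₂]
  [NormedAddCommGroup V] [NormedSpace ℝ V] [NormedAddCommGroup G] [NormedSpace ℝ G]

/-- a derivative along the kernel of `π` of a function constant on the kernel vanishes -/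
lemma ker_deriv {π : E →L[ℝ] E₂} {g : E → G} {g' : E →L[ℝ] G} {q v : E} {G0 : G}
    (hg : HasFDerivAt g g' q) (h0 : ∀ z, π z = 0 → g z = G0) (hq : π q = 0) (hv : π v = 0) :
    g' v = 0 := by
  have h1 : HasDerivAt (fun t : ℝ => q + t • v) v 0 := by
    have := ((hasDerivAt_id (0 : ℝ)).smul_const v).const_add q
    simpa using this
  have h2 : HasDerivAt (fun t : ℝ => g (q + t • v)) (g' v) 0 := by
    have h3 : HasFDerivAt g g' (q + (0 : ℝ) • v) := by simpa using hg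
    exact h3.comp_hasDerivAt (0 : ℝ) h1
  have h4 : (fun t : ℝ => g (q + t • v)) = fun _ => G0 := by
    funext t
    apply h0
    rw [map_add, map_smul, hq, hv, smul_zero, add_zero]
  rw [h4] at h2
  exact h2.unique (hasDerivAt_const (0 : ℝ) G0)

lemma tend_pair (π : E →L[ℝ] E₂) (σ : E₂ →L[ℝ] E) {z₀ : E} (hz : π z₀ = 0) :
    Tendsto (fun q : E => (q, q - σ (π q))) (𝓝 z₀) (𝓝 (z₀, z₀)) := by
  have h : Continuous (fun q : E => (q, q - σ (π q))) := by fun_prop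
  have h1 := h.tendsto z₀
  simpa [hz] using h1

/-- small constant -/
lemma small_of_deriv {π : E →L[ℝ] E₂} {σ : E₂ →L[ℝ] E} (sec : ∀ y, π (σ y) = y) {h : E → G} {z₀ : E}
    (hz : π z₀ = 0) {h' : E →L[ℝ] G} (hh : HasStrictFDerivAt h h' z₀)
    (h0 : ∀ z, π z = 0 → h z = 0) {ε : ℝ} (hε : ‖h'‖ < ε) :
    ∀ᶠ q in 𝓝 z₀, ‖h q‖ ≤ ε * (‖σ‖ * ‖π q‖) := by
  have h1 := hh.isLittleO
  rw [Asymptotics.isLittleO_iff] at h1
  have h2 := h1 (c := ε - ‖h'‖) (by linarith)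
  have h3 := (tend_pair π σ hz).eventually h2
  filter_upwards [h3] with q hq
  simp only [sub_sub_cancel] at hq
  have h4 : h (q - σ (π q)) = 0 := by
    apply h0
    rw [map_sub, sec, sub_self]
  rw [h4, sub_zero] at hq
  have h5 : ‖h q‖ ≤ ‖h q - h' (σ (π q))‖ + ‖h' (σ (π q))‖ := by
    calc ‖h q‖ = ‖(h q - h' (σ (π q))) + h' (σ (π q))‖ := by rw [sub_add_cancel]
      _ ≤ _ := norm_add_le _ _
  have h6 : ‖h' (σ (π q))‖ ≤ ‖h'‖ * ‖σ (π q)‖ := h'.le_opNorm _
  have h7 : ‖σ (π q)‖ ≤ ‖σ‖ * ‖π q‖ := σ.le_opNorm _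
  have h8 : 0 ≤ ε := le_trans (norm_nonneg _) hε.le
  calc ‖h q‖ ≤ (ε - ‖h'‖) * ‖σ (π q)‖ + ‖h'‖ * ‖σ (π q)‖ := by linarith
    _ = ε * ‖σ (π q)‖ := by ring
    _ ≤ ε * (‖σ‖ * ‖π q‖) := mul_le_mul_of_nonneg_left h7 h8

lemma lip_of_deriv {π : E →L[ℝ] E₂} {σ : E₂ →L[ℝ] E} (sec : ∀ y, π (σ y) = y) {h : E → G} {z₀ : E}
    (hz : π z₀ = 0) (hh : ContDiffAt ℝ 1 h z₀)
    (h0 : ∀ z, π z = 0 → h z = 0) :
    ∃ L : ℝ, 0 ≤ L ∧ ∀ᶠ q in 𝓝 z₀, ‖h q‖ ≤ L * ‖π q‖ := by
  have h1 := hh.hasStrictFDerivAt (by norm_num)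
  refine ⟨(‖fderiv ℝ h z₀‖ + 1) * ‖σ‖, by positivity, ?_⟩
  have h2 := small_of_deriv sec hz h1 h0 (ε := ‖fderiv ℝ h z₀‖ + 1) (by linarith)
  filter_upwards [h2] with q hq
  linarith

lemma quad_of_deriv {π : E →L[ℝ] E₂} {σ : E₂ →L[ℝ] E} (sec : ∀ y, π (σ y) = y) {h : E → G} {z₀ : E}
    (hz : π z₀ = 0) (hh : ContDiff ℝ 2 h)
    (h0 : ∀ z, π z = 0 → h z = 0) (h1 : ∀ z, π z = 0 → fderiv ℝ h z = 0) :
    ∃ L : ℝ, 0 ≤ L ∧ ∀ᶠ q in 𝓝 z₀, ‖h q‖ ≤ L * ‖π q‖ ^ 2 := by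
  have hd : ContDiff ℝ 1 (fderiv ℝ h) := hh.fderiv_right (by norm_num)
  obtain ⟨L, hL, hev⟩ := lip_of_deriv sec hz hd.contDiffAt h1
  obtain ⟨ρ, hρ, hball⟩ := Metric.eventually_nhds_iff_ball.1 hev
  have h3 : ∀ᶠ p : E × E in 𝓝 (z₀, z₀), p.1 ∈ Metric.ball z₀ ρ ∧ p.2 ∈ Metric.ball z₀ ρ := by
    have hb := Metric.ball_mem_nhds z₀ hρ
    rw [nhds_prod_eq]
    exact (eventually_of_mem hb (fun _ h => h)).prod_mk (eventually_of_mem hb (fun _ h => h))
  have h4 := (tend_pair π σ hz).eventually h3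
  refine ⟨L * ‖σ‖, by positivity, ?_⟩
  filter_upwards [h4] with q hq
  obtain ⟨hq1, hq2⟩ := hq
  have hseg : segment ℝ (q - σ (π q)) q ⊆ Metric.ball z₀ ρ :=
    (convex_ball z₀ ρ).segment_subset hq2 hq1
  have hz2 : π (q - σ (π q)) = 0 := by rw [map_sub, sec, sub_self]
  have key := (convex_segment (𝕜 := ℝ) (q - σ (π q)) q).norm_image_sub_le_of_norm_fderiv_le
    (f := h) (C := L * ‖π q‖) (fun x _ => (hh.differentiable (by norm_num)) x)
    (fun x hx => by
      have hx1 := hball x (hseg hx)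
      refine le_trans hx1 (mul_le_mul_of_nonneg_left ?_ hL)
      obtain ⟨s, t, hs, ht, hst, rfl⟩ := hx
      rw [map_add, map_smul, map_smul, hz2, smul_zero, zero_add, norm_smul, Real.norm_of_nonneg ht]
      have : t ≤ 1 := by linarith
      nlinarith [norm_nonneg (π q)])
    (left_mem_segment ℝ _ _) (right_mem_segment ℝ _ _)
  rw [h0 _ hz2, sub_zero, sub_sub_cancel] at key
  have h7 : ‖σ (π q)‖ ≤ ‖σ‖ * ‖π q‖ := σ.le_opNorm _
  calc ‖h q‖ ≤ L * ‖π q‖ * ‖σ (π q)‖ := key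
    _ ≤ L * ‖π q‖ * (‖σ‖ * ‖π q‖) := by
        apply mul_le_mul_of_nonneg_left h7
        positivity
    _ = L * ‖σ‖ * ‖π q‖ ^ 2 := by ring

end loc

/-- the data of the induction -/
structure Dat {E E₂ V : Type} [NormedAddCommGroup E] [NormedSpace ℝ E]
    [NormedAddCommGroup E₂] [NormedSpace ℝ E₂] [NormedAddCommGroup V] [NormedSpace ℝ V]
    (π : E →L[ℝ] E₂) (σ : E₂ →L[ℝ] E) (F : E → E) (a : E → V) (c κ : ℝ) (k : ℕ) : Prop where
  sec : ∀ y, π (σ y) = y
  hF : ContDiff ℝ ∞ F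
  ha : ContDiff ℝ ∞ a
  hc : 0 < c
  hc1 : c < 1
  hκ : 0 < κ
  hk : k = 1 ∨ k = 2
  hck : c ^ k < κ
  fix : ∀ z, π z = 0 → F z = z
  dF : ∀ z, π z = 0 → ∀ w, π (fderiv ℝ F z w) = c • π w
  az : ∀ z, π z = 0 → a z = 0
  da : k = 2 → ∀ z, π z = 0 → fderiv ℝ a z = 0

lemma two_le_inf : (2 : WithTop ℕ∞) ≤ ∞ := by
  have h : ((2 : ℕ∞) : WithTop ℕ∞) ≤ ((⊤ : ℕ∞) : WithTop ℕ∞) := by
    exact_mod_cast (le_top : (2 : ℕ∞) ≤ ⊤)
  exact h

lemma one_one_le : (1 + 1 : WithTop ℕ∞) ≤ ∞ := by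
  rw [one_add_one_eq_two]
  exact two_le_inf

section dyn

variable {E E₂ V : Type} [NormedAddCommGroup E] [NormedSpace ℝ E] [FiniteDimensional ℝ E]
  [NormedAddCommGroup E₂] [NormedSpace ℝ E₂]
  [NormedAddCommGroup V] [NormedSpace ℝ V] [FiniteDimensional ℝ V]
  {π : E →L[ℝ] E₂} {σ : E₂ →L[ℝ] E} {F : E → E} {a : E → V} {c κ : ℝ} {k : ℕ}

lemma exists_c' (hc1 : c < 1) (hck : c ^ k < κ) : ∃ c' : ℝ, c < c' ∧ c' < 1 ∧ c' ^ k < κ := by
  have h1 : ∀ᶠ x in 𝓝[>] c, x < 1 := by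
    have : ∀ᶠ x in 𝓝 c, x < 1 := (isOpen_Iio.mem_nhds hc1)
    exact this.filter_mono nhdsWithin_le_nhds
  have h2 : ∀ᶠ x in 𝓝[>] c, x ^ k < κ := by
    have : ∀ᶠ x in 𝓝 c, x ^ k < κ :=
      (continuous_pow k).continuousAt.eventually_lt continuousAt_const hck
    exact this.filter_mono nhdsWithin_le_nhds
  have h3 : ∀ᶠ x in 𝓝[>] c, c < x := self_mem_nhdsWithin
  obtain ⟨x, hx1, hx2, hx3⟩ := (h1.and (h2.and h3)).exists
  exact ⟨x, hx3, hx1, hx2⟩

/-- local dynamics -/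
lemma local_dyn (D : Dat π σ F a c κ k) {z₀ : E} (hz : π z₀ = 0) :
    ∃ θ C : ℝ, 0 ≤ θ ∧ θ < 1 ∧ 0 ≤ C ∧ ∀ᶠ q in 𝓝 z₀,
      (∀ n : ℕ, ‖(κ⁻¹) ^ n • a (F^[n] q)‖ ≤ C * ‖π q‖ ^ k * θ ^ n) ∧
      ∃ z, π z = 0 ∧ Tendsto (fun n : ℕ => F^[n] q) atTop (𝓝 z) := by
  obtain ⟨c', hcc, hc1, hck⟩ := exists_c' D.hc1 D.hck
  have hc0 : 0 < c' := D.hc.trans hcc
  -- first estimate
  have e1 : ∀ᶠ q in 𝓝 z₀, ‖π (F q)‖ ≤ c' * ‖π q‖ := by
    set g : E → E₂ := fun q => π (F q) - c • π q with hg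
    have hd : HasStrictFDerivAt g (π.comp (fderiv ℝ F z₀) - c • π) z₀ := by
      have hF1 : HasStrictFDerivAt F (fderiv ℝ F z₀) z₀ :=
        D.hF.contDiffAt.hasStrictFDerivAt (by simp)
      have h2 : HasStrictFDerivAt (fun q => π (F q)) (π.comp (fderiv ℝ F z₀)) z₀ :=
        (π.hasStrictFDerivAt).comp z₀ hF1
      exact h2.sub ((π.hasStrictFDerivAt).const_smul c)
    have hd0 : π.comp (fderiv ℝ F z₀) - c • π = 0 := by
      ext w
      simp [D.dF z₀ hz w]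
    rw [hd0] at hd
    have hε : 0 < (c' - c) / (‖σ‖ + 1) := by
      apply div_pos (by linarith)
      positivity
    have h3 := small_of_deriv D.sec hz hd (fun z hz' => by
      simp only [hg]
      rw [D.fix z hz', hz', smul_zero, sub_zero]) (ε := (c' - c) / (‖σ‖ + 1)) (by simpa using hε)
    filter_upwards [h3] with q hq
    have h4 : (c' - c) / (‖σ‖ + 1) * (‖σ‖ * ‖π q‖) ≤ (c' - c) * ‖π q‖ := by
      have h5 : (c' - c) / (‖σ‖ + 1) * (‖σ‖ * ‖π q‖)
          = (c' - c) * ‖π q‖ * (‖σ‖ / (‖σ‖ + 1)) := by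
        field_simp
      rw [h5]
      apply mul_le_of_le_one_right
      · exact mul_nonneg (by linarith) (norm_nonneg _)
      · rw [div_le_one (by positivity)]
        linarith
    have h6 : ‖π (F q)‖ ≤ ‖g q‖ + ‖c • π q‖ := by
      calc ‖π (F q)‖ = ‖g q + c • π q‖ := by simp [hg]
        _ ≤ _ := norm_add_le _ _
    rw [norm_smul, Real.norm_of_nonneg D.hc.le] at h6
    linarith
  -- second estimate
  obtain ⟨L, hL, e2⟩ := lip_of_deriv (h := fun q => F q - q) D.sec hz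
    ((D.hF.of_le (by simp)).sub contDiff_id).contDiffAt (fun z hz' => by
      rw [D.fix z hz', sub_self])
  -- third estimate
  have e3 : ∃ C : ℝ, 0 ≤ C ∧ ∀ᶠ q in 𝓝 z₀, ‖a q‖ ≤ C * ‖π q‖ ^ k := by
    rcases D.hk with h | h
    · obtain ⟨C, hC, hev⟩ := lip_of_deriv D.sec hz (D.ha.of_le (by simp)).contDiffAt D.az
      refine ⟨C, hC, ?_⟩
      filter_upwards [hev] with q hq
      rw [h, pow_one]
      exact hq
    · obtain ⟨C, hC, hev⟩ := quad_of_deriv D.sec hz (D.ha.of_le two_le_inf) D.az (D.da h)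
      refine ⟨C, hC, ?_⟩
      filter_upwards [hev] with q hq
      rw [h]
      exact hq
  obtain ⟨C, hC, e3⟩ := e3
  obtain ⟨ρ, hρ, hball⟩ := Metric.eventually_nhds_iff_ball.1 (e1.and (e2.and e3))
  set A : ℝ := 1 + L * ‖π‖ * (1 - c')⁻¹ with hA
  have h1c : 0 < 1 - c' := by linarith
  have hA0 : 0 < A := by
    have : 0 ≤ L * ‖π‖ * (1 - c')⁻¹ := by positivity
    linarith
  have dyn : ∀ q ∈ Metric.ball z₀ (ρ / A), ∀ n : ℕ, F^[n] q ∈ Metric.ball z₀ ρ ∧
      ‖π (F^[n] q)‖ ≤ c' ^ n * ‖π q‖ ∧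
      ‖F^[n] q - q‖ ≤ L * ‖π q‖ * ∑ i ∈ Finset.range n, c' ^ i := by
    intro q hq
    rw [Metric.mem_ball, dist_eq_norm] at hq
    have hπq : ‖π q‖ ≤ ‖π‖ * ‖q - z₀‖ := by
      have : π q = π (q - z₀) := by rw [map_sub, hz, sub_zero]
      rw [this]
      exact π.le_opNorm _
    have hin : ∀ n : ℕ, ‖F^[n] q - q‖ ≤ L * ‖π q‖ * ∑ i ∈ Finset.range n, c' ^ i →
        F^[n] q ∈ Metric.ball z₀ ρ := by
      intro n hn
      rw [Metric.mem_ball, dist_eq_norm]
      have hs : ∑ i ∈ Finset.range n, c' ^ i ≤ (1 - c')⁻¹ := by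
        rw [← tsum_geometric_of_lt_one hc0.le hc1]
        exact (summable_geometric_of_lt_one hc0.le hc1).sum_le_tsum _ (fun i _ => by positivity)
      have hs0 : 0 ≤ ∑ i ∈ Finset.range n, c' ^ i := Finset.sum_nonneg (fun i _ => by positivity)
      have h5 : ‖F^[n] q - q‖ ≤ L * (‖π‖ * ‖q - z₀‖) * (1 - c')⁻¹ := by
        refine hn.trans ?_
        apply mul_le_mul
        · exact mul_le_mul_of_nonneg_left hπq hL
        · exact hs
        · exact hs0
        · positivity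
      have h6 : ‖F^[n] q - z₀‖ ≤ ‖F^[n] q - q‖ + ‖q - z₀‖ := by
        calc ‖F^[n] q - z₀‖ = ‖(F^[n] q - q) + (q - z₀)‖ := by congr 1; abel
          _ ≤ _ := norm_add_le _ _
      have h7 : ‖F^[n] q - z₀‖ ≤ A * ‖q - z₀‖ := by
        calc ‖F^[n] q - z₀‖ ≤ L * (‖π‖ * ‖q - z₀‖) * (1 - c')⁻¹ + ‖q - z₀‖ := by linarith
          _ = A * ‖q - z₀‖ := by rw [hA]; ring
      refine lt_of_le_of_lt h7 ?_
      rw [lt_div_iff₀ hA0] at hq
      linarith
    intro n
    induction n with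
    | zero =>
      have h0 : ‖F^[0] q - q‖ ≤ L * ‖π q‖ * ∑ i ∈ Finset.range 0, c' ^ i := by simp
      exact ⟨hin 0 h0, by simp, h0⟩
    | succ n ih =>
      obtain ⟨i1, i2, i3⟩ := ih
      obtain ⟨b1, b2, -⟩ := hball _ i1
      have hs1 : F^[n+1] q = F (F^[n] q) := Function.iterate_succ_apply' F n q
      have h2 : ‖π (F^[n+1] q)‖ ≤ c' ^ (n+1) * ‖π q‖ := by
        rw [hs1, pow_succ]
        calc ‖π (F (F^[n] q))‖ ≤ c' * ‖π (F^[n] q)‖ := b1
          _ ≤ c' * (c' ^ n * ‖π q‖) := mul_le_mul_of_nonneg_left i2 hc0.le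
          _ = _ := by ring
      have h3 : ‖F^[n+1] q - q‖ ≤ L * ‖π q‖ * ∑ i ∈ Finset.range (n+1), c' ^ i := by
        rw [hs1, Finset.sum_range_succ]
        calc ‖F (F^[n] q) - q‖ = ‖(F (F^[n] q) - F^[n] q) + (F^[n] q - q)‖ := by congr 1; abel
          _ ≤ ‖F (F^[n] q) - F^[n] q‖ + ‖F^[n] q - q‖ := norm_add_le _ _
          _ ≤ L * (c' ^ n * ‖π q‖) + L * ‖π q‖ * ∑ i ∈ Finset.range n, c' ^ i := by
              have := mul_le_mul_of_nonneg_left i2 hL
              linarith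
          _ = _ := by ring
      exact ⟨hin _ h3, h2, h3⟩
  refine ⟨c' ^ k / κ, C, by positivity [D.hκ], ?_, hC, ?_⟩
  · rw [div_lt_one D.hκ]
    exact hck
  · have hη : 0 < ρ / A := div_pos hρ hA0
    filter_upwards [Metric.ball_mem_nhds z₀ hη] with q hq
    have hd := dyn q hq
    refine ⟨fun n => ?_, ?_⟩
    · obtain ⟨d1, d2, d3⟩ := hd n
      obtain ⟨-, -, b3⟩ := hball _ d1
      have hκ := D.hκ
      rw [norm_smul, norm_pow, norm_inv, Real.norm_of_nonneg hκ.le]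
      have h5 : ‖a (F^[n] q)‖ ≤ C * (c' ^ n * ‖π q‖) ^ k :=
        b3.trans (mul_le_mul_of_nonneg_left (pow_le_pow_left₀ (norm_nonneg _) d2 k) hC)
      calc κ⁻¹ ^ n * ‖a (F^[n] q)‖ ≤ κ⁻¹ ^ n * (C * (c' ^ n * ‖π q‖) ^ k) := by
            apply mul_le_mul_of_nonneg_left h5
            positivity
        _ = C * ‖π q‖ ^ k * (c' ^ k / κ) ^ n := by
            rw [div_pow, mul_pow, ← pow_mul, ← pow_mul, mul_comm n k, inv_pow]
            field_simp
    · have hcs : CauchySeq (fun n : ℕ => F^[n] q) := by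
        apply cauchySeq_of_le_geometric c' (L * ‖π q‖) hc1
        intro n
        obtain ⟨d1, d2, d3⟩ := hd n
        obtain ⟨-, b2, -⟩ := hball _ d1
        rw [dist_comm, dist_eq_norm, Function.iterate_succ_apply' F n q]
        have := mul_le_mul_of_nonneg_left d2 hL
        calc _ ≤ L * ‖π (F^[n] q)‖ := b2
          _ ≤ L * (c' ^ n * ‖π q‖) := this
          _ = _ := by ring
      have : CompleteSpace E := FiniteDimensional.complete ℝ E
      obtain ⟨z, hz'⟩ := cauchySeq_tendsto_of_complete hcs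
      refine ⟨z, ?_, hz'⟩
      have h1 : Tendsto (fun n : ℕ => π (F^[n] q)) atTop (𝓝 (π z)) :=
        (π.continuous.tendsto z).comp hz'
      have h2 : Tendsto (fun n : ℕ => π (F^[n] q)) atTop (𝓝 0) := by
        apply squeeze_zero_norm (a := fun n => c' ^ n * ‖π q‖) (fun n => (hd n).2.1)
        have := (tendsto_pow_atTop_nhds_zero_of_lt_one hc0.le hc1).mul_const ‖π q‖
        simpa using this
      exact tendsto_nhds_unique h1 h2

end dyn

section tangent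

variable {E E₂ V G : Type} [NormedAddCommGroup E] [NormedSpace ℝ E]
  [NormedAddCommGroup E₂] [NormedSpace ℝ E₂]
  [NormedAddCommGroup V] [NormedSpace ℝ V] [NormedAddCommGroup G] [NormedSpace ℝ G]
  {π : E →L[ℝ] E₂} {σ : E₂ →L[ℝ] E} {F : E → E} {a : E → V} {c κ : ℝ} {k : ℕ}

/-- tangent function -/
noncomputable def Ta (a : E → V) : E × E → V := fun p => fderiv ℝ a p.1 p.2

/-- tangent map -/
noncomputable def TF (F : E → E) : E × E → E × E := fun p => (F p.1, fderiv ℝ F p.1 p.2)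

lemma Ta_smooth {a : E → V} (ha : ContDiff ℝ ∞ a) : ContDiff ℝ ∞ (Ta a) :=
  ((ha.fderiv_right (m := ∞) (by simp)).comp contDiff_fst).clm_apply contDiff_snd

lemma TF_smooth {F : E → E} (hF : ContDiff ℝ ∞ F) : ContDiff ℝ ∞ (TF F) :=
  (hF.comp contDiff_fst).prodMk (Ta_smooth hF)

lemma Ta_deriv {a : E → V} (ha : ContDiff ℝ ∞ a) (p : E × E) :
    HasFDerivAt (Ta a) (((fderiv ℝ a p.1).comp (ContinuousLinearMap.snd ℝ E E)) +
      (((fderiv ℝ (fderiv ℝ a) p.1).comp (ContinuousLinearMap.fst ℝ E E)).flip p.2)) p := by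
  have hd : ContDiff ℝ 1 (fderiv ℝ a) := ha.fderiv_right one_one_le
  have h1 : HasFDerivAt (fderiv ℝ a) (fderiv ℝ (fderiv ℝ a) p.1) p.1 :=
    ((hd.differentiable (by norm_num)) p.1).hasFDerivAt
  have h2 : HasFDerivAt (fun p : E × E => fderiv ℝ a p.1)
      ((fderiv ℝ (fderiv ℝ a) p.1).comp (ContinuousLinearMap.fst ℝ E E)) p :=
    h1.comp p hasFDerivAt_fst
  exact h2.clm_apply hasFDerivAt_snd

lemma Ta_fderiv {a : E → V} (ha : ContDiff ℝ ∞ a) (p w : E × E) :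
    fderiv ℝ (Ta a) p w = fderiv ℝ a p.1 w.2 + fderiv ℝ (fderiv ℝ a) p.1 w.1 p.2 := by
  rw [(Ta_deriv ha p).fderiv]
  simp

lemma symm2 {a : E → V} (ha : ContDiff ℝ ∞ a) (q v w : E) :
    fderiv ℝ (fderiv ℝ a) q v w = fderiv ℝ (fderiv ℝ a) q w v := by
  have h := (ha.contDiffAt (x := q)).isSymmSndFDerivAt (by
    rw [minSmoothness_of_isRCLikeNormedField]
    exact two_le_inf)
  exact h.eq v w

lemma Dat.tangent (D : Dat π σ F a c κ k) :
    Dat (π.prodMap π) (σ.prodMap σ) (TF F) (Ta a) c κ k where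
  sec := by
    rintro ⟨y1, y2⟩
    simp [D.sec]
  hF := TF_smooth D.hF
  ha := Ta_smooth D.ha
  hc := D.hc
  hc1 := D.hc1
  hκ := D.hκ
  hk := D.hk
  hck := D.hck
  fix := by
    rintro ⟨q, v⟩ hp
    simp only [ContinuousLinearMap.coe_prodMap', Prod.map_apply, Prod.mk_eq_zero] at hp
    obtain ⟨hq, hv⟩ := hp
    have h1 : fderiv ℝ F q v - v = 0 := by
      have h2 : HasFDerivAt (fun z => F z - z) (fderiv ℝ F q - ContinuousLinearMap.id ℝ E) q :=
        ((D.hF.differentiable (by simp)) q).hasFDerivAt.sub (hasFDerivAt_id q)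
      have h3 := ker_deriv (π := π) (G0 := 0) h2 (fun z hz => by rw [D.fix z hz, sub_self]) hq hv
      simpa using h3
    simp only [TF, D.fix q hq, sub_eq_zero.1 h1]
  dF := by
    rintro ⟨q, v⟩ hp ⟨w1, w2⟩
    simp only [ContinuousLinearMap.coe_prodMap', Prod.map_apply, Prod.mk_eq_zero] at hp
    obtain ⟨hq, hv⟩ := hp
    have h1 : HasFDerivAt (TF F) (((fderiv ℝ F q).comp (ContinuousLinearMap.fst ℝ E E)).prod
        (((fderiv ℝ F q).comp (ContinuousLinearMap.snd ℝ E E)) +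
      (((fderiv ℝ (fderiv ℝ F) q).comp (ContinuousLinearMap.fst ℝ E E)).flip v))) (q, v) := by
      have h2 : HasFDerivAt (fun p : E × E => F p.1)
          ((fderiv ℝ F q).comp (ContinuousLinearMap.fst ℝ E E)) (q, v) :=
        HasFDerivAt.comp (q, v) (((D.hF.differentiable (by simp)) q).hasFDerivAt) hasFDerivAt_fst
      exact h2.prodMk (Ta_deriv D.hF (q, v))
    rw [h1.fderiv]
    have h5 : π (fderiv ℝ (fderiv ℝ F) q w1 v) = 0 := by
      rw [symm2 D.hF]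
      have hd : ContDiff ℝ 1 (fderiv ℝ F) := D.hF.fderiv_right one_one_le
      have h6 : HasFDerivAt (fun z => π (fderiv ℝ F z w1))
          (π.comp ((fderiv ℝ (fderiv ℝ F) q).flip w1)) q := by
        have h7 : HasFDerivAt (fderiv ℝ F) (fderiv ℝ (fderiv ℝ F) q) q :=
          ((hd.differentiable (by norm_num)) q).hasFDerivAt
        have h8 : HasFDerivAt (fun z => fderiv ℝ F z w1)
            ((fderiv ℝ (fderiv ℝ F) q).flip w1) q := by
          have := h7.clm_apply (hasFDerivAt_const w1 q)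
          simpa using this
        exact (π.hasFDerivAt (x := fderiv ℝ F q w1)).comp q h8
      have h9 := ker_deriv (π := π) (G0 := c • π w1) h6 (fun z hz => D.dF z hz w1) hq hv
      simpa using h9
    simp [D.dF q hq, h5]
  az := by
    rintro ⟨q, v⟩ hp
    simp only [ContinuousLinearMap.coe_prodMap', Prod.map_apply, Prod.mk_eq_zero] at hp
    obtain ⟨hq, hv⟩ := hp
    exact ker_deriv (π := π) (G0 := 0) ((D.ha.differentiable (by simp)) q).hasFDerivAt D.az hq hv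
  da := by
    rintro hk2 ⟨q, v⟩ hp
    simp only [ContinuousLinearMap.coe_prodMap', Prod.map_apply, Prod.mk_eq_zero] at hp
    obtain ⟨hq, hv⟩ := hp
    have key : ∀ w : E × E, fderiv ℝ (Ta a) (q, v) w = 0 := by
      intro w
      rw [Ta_fderiv D.ha, symm2 D.ha]
      have hd : ContDiff ℝ 1 (fderiv ℝ a) := D.ha.fderiv_right one_one_le
      have h7 : HasFDerivAt (fderiv ℝ a) (fderiv ℝ (fderiv ℝ a) q) q :=
          ((hd.differentiable (by norm_num)) q).hasFDerivAt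
      have h8 := ker_deriv (π := π) (G0 := 0) h7 (D.da hk2) hq hv
      simp only
      rw [h8, D.da hk2 q hq]
      simp
    ext w
    · simpa using key (w, 0)
    · simpa using key (0, w)

lemma iter_smooth {F : E → E} (hF : ContDiff ℝ ∞ F) (n : ℕ) : ContDiff ℝ ∞ (F^[n]) := by
  induction n with
  | zero => exact contDiff_id
  | succ n ih =>
    rw [Function.iterate_succ']
    exact hF.comp ih

lemma TF_iter {F : E → E} (hF : ContDiff ℝ ∞ F) (n : ℕ) (q v : E) :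
    (TF F)^[n] (q, v) = (F^[n] q, fderiv ℝ (F^[n]) q v) := by
  induction n with
  | zero => simp
  | succ n ih =>
    rw [Function.iterate_succ_apply', ih, Function.iterate_succ_apply']
    simp only [TF]
    have h1 : HasFDerivAt (F^[n+1]) ((fderiv ℝ F (F^[n] q)).comp (fderiv ℝ (F^[n]) q)) q := by
      rw [Function.iterate_succ']
      exact HasFDerivAt.comp q ((hF.differentiable (by simp)) _).hasFDerivAt
        (((iter_smooth hF n).differentiable (by simp)) q).hasFDerivAt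
    rw [h1.fderiv]
    simp

lemma Ta_iter {F : E → E} {a : E → V} (hF : ContDiff ℝ ∞ F) (ha : ContDiff ℝ ∞ a) (n : ℕ) (q v : E) :
    Ta a ((TF F)^[n] (q, v)) = fderiv ℝ (fun q => a (F^[n] q)) q v := by
  rw [TF_iter hF]
  have h1 : HasFDerivAt (fun q => a (F^[n] q)) ((fderiv ℝ a (F^[n] q)).comp (fderiv ℝ (F^[n]) q)) q :=
    HasFDerivAt.comp q ((ha.differentiable (by simp)) _).hasFDerivAt
        (((iter_smooth hF n).differentiable (by simp)) q).hasFDerivAt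
  rw [h1.fderiv]
  simp [Ta]

end tangent

section main

lemma clm_at {D E F : Type} [NormedAddCommGroup D] [NormedSpace ℝ D] [NormedAddCommGroup E]
    [NormedSpace ℝ E] [NormedAddCommGroup F] [NormedSpace ℝ F] {n : WithTop ℕ∞}
    {f : D → E →L[ℝ] F} {x : D} [FiniteDimensional ℝ E]
    (h : ∀ y, ContDiffAt ℝ n (fun x => f x y) x) : ContDiffAt ℝ n f x := by
  let d := Module.finrank ℝ E
  have hd : d = Module.finrank ℝ (Fin d → ℝ) := (Module.finrank_fin_fun ℝ).symm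
  let e₁ := ContinuousLinearEquiv.ofFinrankEq hd
  let e₂ := (e₁.arrowCongr (1 : F ≃L[ℝ] F)).trans (ContinuousLinearEquiv.piRing (Fin d))
  rw [← Function.id_comp f, ← e₂.symm_comp_self]
  exact e₂.symm.contDiff.contDiffAt.comp x (contDiffAt_pi.2 fun i => h _)

/-- the series -/
noncomputable def Ser {E V : Type} [NormedAddCommGroup V] [NormedSpace ℝ V]
    (F : E → E) (a : E → V) (κ : ℝ) : E → V :=
  fun q => ∑' n : ℕ, (κ⁻¹) ^ n • a (F^[n] q)

variable {E E₂ V : Type} [NormedAddCommGroup E] [NormedSpace ℝ E] [FiniteDimensional ℝ E]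
  [NormedAddCommGroup E₂] [NormedSpace ℝ E₂]
  [NormedAddCommGroup V] [NormedSpace ℝ V] [FiniteDimensional ℝ V]
  {π : E →L[ℝ] E₂} {σ : E₂ →L[ℝ] E} {F : E → E} {a : E → V} {c κ : ℝ} {k : ℕ}

/-- uniform version of the bounds -/
lemma unif_bd (D : Dat π σ F a c κ k) {z₀ : E} (hz : π z₀ = 0) :
    ∃ θ C : ℝ, 0 ≤ θ ∧ θ < 1 ∧ 0 ≤ C ∧ ∀ᶠ q in 𝓝 z₀,
      (∀ n : ℕ, ‖(κ⁻¹) ^ n • a (F^[n] q)‖ ≤ C * θ ^ n) := by
  obtain ⟨θ, C, h0, h1, hC, hev⟩ := local_dyn D hz
  refine ⟨θ, C, h0, h1, hC, ?_⟩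
  have h2 : ∀ᶠ q in 𝓝 z₀, ‖π q‖ < 1 := by
    have h3 : Continuous (fun q => ‖π q‖) := by fun_prop
    exact h3.continuousAt.eventually_lt continuousAt_const (by simp [hz])
  filter_upwards [hev, h2] with q hq hq2 n
  refine (hq.1 n).trans ?_
  apply mul_le_mul_of_nonneg_right _ (by positivity)
  calc C * ‖π q‖ ^ k ≤ C * 1 := by
        apply mul_le_mul_of_nonneg_left _ hC
        exact pow_le_one₀ (norm_nonneg _) hq2.le
    _ = C := mul_one C

lemma summ_of_bd {θ C : ℝ} (h0 : 0 ≤ θ) (h1 : θ < 1) {f : ℕ → V} (h : ∀ n, ‖f n‖ ≤ C * θ ^ n) :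
    Summable f := by
  have : CompleteSpace V := FiniteDimensional.complete ℝ V
  exact Summable.of_norm_bounded ((summable_geometric_of_lt_one h0 h1).mul_left C) h

lemma smooth_zero (D : Dat π σ F a c κ k) {z₀ : E} (hz : π z₀ = 0) :
    ContDiffAt ℝ 0 (Ser F a κ) z₀ := by
  have : CompleteSpace V := FiniteDimensional.complete ℝ V
  obtain ⟨θ, C, h0, h1, hC, hev⟩ := unif_bd D hz
  rw [contDiffAt_zero]
  refine ⟨_, hev, ?_⟩
  apply continuousOn_tsum (u := fun n => C * θ ^ n)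
  · intro n
    apply Continuous.continuousOn
    exact (D.ha.continuous.comp (iter_smooth D.hF n).continuous).const_smul _
  · exact (summable_geometric_of_lt_one h0 h1).mul_left C
  · intro n q hq
    exact hq n

theorem smooth_nat (r : ℕ) : ∀ (E E₂ V : Type) [NormedAddCommGroup E] [NormedSpace ℝ E]
    [FiniteDimensional ℝ E] [NormedAddCommGroup E₂] [NormedSpace ℝ E₂]
    [NormedAddCommGroup V] [NormedSpace ℝ V] [FiniteDimensional ℝ V]
    (π : E →L[ℝ] E₂) (σ : E₂ →L[ℝ] E) (F : E → E) (a : E → V) (c κ : ℝ) (k : ℕ),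
    Dat π σ F a c κ k → ∀ z₀ : E, π z₀ = 0 → ContDiffAt ℝ r (Ser F a κ) z₀ := by
  induction r with
  | zero =>
    intro E E₂ V _ _ _ _ _ _ _ _ π σ F a c κ k D z₀ hz
    exact_mod_cast smooth_zero D hz
  | succ r ih =>
    intro E E₂ V _ _ _ _ _ _ _ _ π σ F a c κ k D z₀ hz
    have hcV : CompleteSpace V := FiniteDimensional.complete ℝ V
    have hz' : (π.prodMap π) ((z₀, 0) : E × E) = 0 := by simp [hz]
    have ih' := ih (E × E) (E₂ × E₂) V _ _ _ _ _ _ _ D.tangent (z₀, 0) hz'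
    obtain ⟨θ, C, h0, h1, hC, hev⟩ := unif_bd D.tangent hz'
    obtain ⟨η, hη, hball⟩ := Metric.eventually_nhds_iff_ball.1 hev
    set f : ℕ → E → V := fun n q => κ⁻¹ ^ n • a (F^[n] q) with hf
    set f' : ℕ → E → E →L[ℝ] V := fun n q => κ⁻¹ ^ n • fderiv ℝ (fun q => a (F^[n] q)) q with hf'
    have hbd : ∀ n : ℕ, ∀ q ∈ Metric.ball z₀ η, ‖f' n q‖ ≤ (2 / η * C) * θ ^ n := by
      intro n q hq
      apply ContinuousLinearMap.opNorm_le_bound _ (by positivity)
      intro v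
      by_cases hv : v = 0
      · simp [hv]
      have hn : 0 < ‖v‖ := norm_pos_iff.2 hv
      have ht : 0 < η / (2 * ‖v‖) := by positivity
      have hmem : ((q, (η / (2 * ‖v‖)) • v) : E × E) ∈ Metric.ball ((z₀, 0) : E × E) η := by
        rw [Metric.mem_ball, Prod.dist_eq, max_lt_iff]
        refine ⟨hq, ?_⟩
        rw [dist_zero_right, norm_smul, Real.norm_of_nonneg ht.le]
        have : η / (2 * ‖v‖) * ‖v‖ = η / 2 := by field_simp
        rw [this]
        linarith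
      have h2 := hball _ hmem n
      rw [Ta_iter D.hF D.ha, map_smul, smul_comm, norm_smul, Real.norm_of_nonneg ht.le] at h2
      have h3 : ‖f' n q v‖ = ‖κ⁻¹ ^ n • (fderiv ℝ (fun q => a (F^[n] q)) q) v‖ := by
        simp [hf']
      rw [← h3] at h2
      have h4 : η / (2 * ‖v‖) * ‖f' n q v‖ * (2 * ‖v‖ / η) ≤ C * θ ^ n * (2 * ‖v‖ / η) :=
        mul_le_mul_of_nonneg_right h2 (by positivity)
      have h5 : η / (2 * ‖v‖) * ‖f' n q v‖ * (2 * ‖v‖ / η) = ‖f' n q v‖ := by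
        field_simp
      rw [h5] at h4
      calc ‖f' n q v‖ ≤ C * θ ^ n * (2 * ‖v‖ / η) := h4
        _ = 2 / η * C * θ ^ n * ‖v‖ := by ring
    have hsu : Summable (fun n : ℕ => (2 / η * C) * θ ^ n) :=
      (summable_geometric_of_lt_one h0 h1).mul_left _
    have hder : ∀ n : ℕ, ∀ q ∈ Metric.ball z₀ η, HasFDerivAt (f n) (f' n q) q := by
      intro n q _
      have h3 : ContDiff ℝ ∞ (fun q => a (F^[n] q)) := D.ha.comp (iter_smooth D.hF n)
      exact ((h3.differentiable (by simp)) q).hasFDerivAt.const_smul _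
    have hsz : Summable (fun n => f n z₀) := by
      obtain ⟨θ', C', h0', h1', hC', hev'⟩ := unif_bd D hz
      exact summ_of_bd h0' h1' hev'.self_of_nhds
    have hD : ∀ q ∈ Metric.ball z₀ η, HasFDerivAt (Ser F a κ) (∑' n, f' n q) q := by
      intro q hq
      exact hasFDerivAt_tsum_of_isPreconnected hsu Metric.isOpen_ball
        (convex_ball z₀ η).isPreconnected hder hbd (Metric.mem_ball_self hη) hsz hq
    have hsumm : ∀ q ∈ Metric.ball z₀ η, Summable (fun n => f' n q) := by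
      intro q hq
      exact Summable.of_norm_bounded hsu (fun n => hbd n q hq)
    rw [Nat.cast_succ, contDiffAt_succ_iff_hasFDerivAt]
    refine ⟨fun q => ∑' n, f' n q, ⟨Metric.ball z₀ η, Metric.ball_mem_nhds z₀ hη, hD⟩, ?_⟩
    apply clm_at
    intro v
    have hev2 : ∀ᶠ p in 𝓝 ((z₀, 0) : E × E), ContDiffAt ℝ r (Ser (TF F) (Ta a) κ) p :=
      ih'.eventually (by simp)
    have htd : Tendsto (fun t : ℝ => ((z₀, t • v) : E × E)) (𝓝[≠] 0) (𝓝 (z₀, 0)) := by
      have hcont : Continuous (fun t : ℝ => ((z₀, t • v) : E × E)) := by fun_prop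
      have h2 := hcont.tendsto 0
      simp only [zero_smul] at h2
      exact h2.mono_left nhdsWithin_le_nhds
    obtain ⟨t, ht, htne⟩ := ((htd.eventually hev2).and self_mem_nhdsWithin).exists
    have htne' : t ≠ 0 := htne
    have hcomp : ContDiffAt ℝ r (fun q => Ser (TF F) (Ta a) κ (q, t • v)) z₀ :=
      ContDiffAt.comp z₀ (g := Ser (TF F) (Ta a) κ) (f := fun q : E => (q, t • v)) ht
        (contDiffAt_id.prodMk contDiffAt_const)
    have hcomp2 : ContDiffAt ℝ r (fun q => t⁻¹ • Ser (TF F) (Ta a) κ (q, t • v)) z₀ :=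
      hcomp.const_smul _
    refine hcomp2.congr_of_eventuallyEq ?_
    filter_upwards [Metric.ball_mem_nhds z₀ hη] with q hq
    have e1 : Ser (TF F) (Ta a) κ (q, t • v) = (∑' n, f' n q) (t • v) := by
      have e2 := (ContinuousLinearMap.apply ℝ V (t • v)).map_tsum (hsumm q hq)
      simp only [ContinuousLinearMap.apply_apply] at e2
      rw [e2]
      unfold Ser
      apply tsum_congr
      intro n
      rw [Ta_iter D.hF D.ha]
      rfl
    rw [e1, map_smul, smul_smul, inv_mul_cancel₀ htne', one_smul]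

theorem full (D : Dat π σ F a c κ k) :
    ∃ U : Set E, IsOpen U ∧ (∀ z : E, π z = 0 → z ∈ U) ∧ (∀ q ∈ U, F q ∈ U) ∧
    (∀ q ∈ U, Summable (fun n : ℕ => (κ⁻¹) ^ n • a (F^[n] q))) ∧
    ContDiffOn ℝ ∞ (Ser F a κ) U ∧
    ∀ z₀ : E, π z₀ = 0 → ∃ η C : ℝ, 0 < η ∧ ∀ q : E, ‖q - z₀‖ < η →
      ‖Ser F a κ q‖ ≤ C * ‖π q‖ ^ k := by
  have hcV : CompleteSpace V := FiniteDimensional.complete ℝ V
  have hfixn : ∀ n : ℕ, ∀ z, π z = 0 → F^[n] z = z := by
    intro n z hz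
    exact Function.iterate_fixed (D.fix z hz) n
  have hadd : ∀ (m n : ℕ) (q : E), F^[m] (F^[n] q) = F^[m + n] q := fun m n q =>
    (Function.iterate_add_apply F m n q).symm
  have hsumU : ∀ q, (∃ z, π z = 0 ∧ Tendsto (fun n : ℕ => F^[n] q) atTop (𝓝 z)) →
      Summable (fun n : ℕ => (κ⁻¹) ^ n • a (F^[n] q)) := by
    rintro q ⟨z, hz, hlim⟩
    obtain ⟨θ, C, h0, h1, hC, hev⟩ := unif_bd D hz
    obtain ⟨n, hn⟩ := (hlim.eventually hev).exists
    have h2 := summ_of_bd h0 h1 hn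
    rw [← summable_nat_add_iff n]
    have h3 := h2.const_smul (κ⁻¹ ^ n)
    refine h3.congr (fun m => ?_)
    rw [hadd, smul_smul, ← pow_add, add_comm n m]
  refine ⟨{q | ∃ z, π z = 0 ∧ Tendsto (fun n : ℕ => F^[n] q) atTop (𝓝 z)}, ?_, ?_, ?_, ?_, ?_, ?_⟩
  · rw [isOpen_iff_mem_nhds]
    rintro q ⟨z, hz, hlim⟩
    obtain ⟨θ, C, h0, h1, hC, hev⟩ := local_dyn D hz
    obtain ⟨n, hn⟩ := (hlim.eventually hev.eventually_nhds).exists
    have h2 := ((iter_smooth D.hF n).continuous.tendsto q).eventually hn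
    filter_upwards [h2] with q' hq'
    obtain ⟨-, z', hz', hlim'⟩ := hq'
    refine ⟨z', hz', ?_⟩
    rw [← tendsto_add_atTop_iff_nat n]
    refine hlim'.congr (fun m => hadd m n q')
  · intro z hz
    refine ⟨z, hz, ?_⟩
    have : (fun n : ℕ => F^[n] z) = fun _ => z := by
      funext n
      exact hfixn n z hz
    rw [this]
    exact tendsto_const_nhds
  · rintro q ⟨z, hz, hlim⟩
    refine ⟨z, hz, ?_⟩
    have h2 := (tendsto_add_atTop_iff_nat 1).2 hlim
    exact h2.congr (fun n => Function.iterate_succ_apply F n q)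
  · exact hsumU
  · rw [contDiffOn_infty]
    intro r
    have hopen : IsOpen {q | ∃ z, π z = 0 ∧ Tendsto (fun n : ℕ => F^[n] q) atTop (𝓝 z)} := by
      rw [isOpen_iff_mem_nhds]
      rintro q ⟨z, hz, hlim⟩
      obtain ⟨θ, C, h0, h1, hC, hev⟩ := local_dyn D hz
      obtain ⟨n, hn⟩ := (hlim.eventually hev.eventually_nhds).exists
      have h2 := ((iter_smooth D.hF n).continuous.tendsto q).eventually hn
      filter_upwards [h2] with q' hq'
      obtain ⟨-, z', hz', hlim'⟩ := hq'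
      refine ⟨z', hz', ?_⟩
      rw [← tendsto_add_atTop_iff_nat n]
      refine hlim'.congr (fun m => hadd m n q')
    intro q hq
    apply ContDiffAt.contDiffWithinAt
    obtain ⟨z, hz, hlim⟩ := hq
    have h1 := smooth_nat r E E₂ V π σ F a c κ k D z hz
    have h2 : ∀ᶠ p in 𝓝 z, ContDiffAt ℝ r (Ser F a κ) p := h1.eventually (by simp)
    obtain ⟨n, hn⟩ := (hlim.eventually h2).exists
    have hle : ((r : ℕ) : WithTop ℕ∞) ≤ ∞ := by
      exact_mod_cast (le_top : ((r : ℕ) : ℕ∞) ≤ ⊤)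
    have h3 : ContDiffAt ℝ r (fun q' => (∑ i ∈ Finset.range n, κ⁻¹ ^ i • a (F^[i] q')) +
        κ⁻¹ ^ n • Ser F a κ (F^[n] q')) q := by
      apply ContDiffAt.add
      · apply ContDiffAt.sum
        intro i _
        exact (((D.ha.comp (iter_smooth D.hF i)).of_le hle).contDiffAt).const_smul _
      · apply ContDiffAt.const_smul
        exact ContDiffAt.comp q hn (((iter_smooth D.hF n).of_le hle).contDiffAt)
    refine h3.congr_of_eventuallyEq ?_
    filter_upwards [hopen.mem_nhds ⟨z, hz, hlim⟩] with q' hq'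
    have h4 := (hsumU q' hq').sum_add_tsum_nat_add n
    have h5 : κ⁻¹ ^ n • Ser F a κ (F^[n] q') = ∑' i : ℕ, κ⁻¹ ^ (i + n) • a (F^[i + n] q') := by
      unfold Ser
      rw [← tsum_const_smul'']
      apply tsum_congr
      intro m
      rw [hadd, smul_smul, ← pow_add, add_comm n m]
    rw [h5, h4]
    rfl
  · intro z₀ hz
    obtain ⟨θ, C, h0, h1, hC, hev⟩ := local_dyn D hz
    obtain ⟨η, hη, hball⟩ := Metric.eventually_nhds_iff_ball.1 hev
    refine ⟨η, C * (1 - θ)⁻¹, hη, fun q hq => ?_⟩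
    have h2 := (hball q (by rwa [Metric.mem_ball, dist_eq_norm])).1
    have h3 : HasSum (fun n : ℕ => C * ‖π q‖ ^ k * θ ^ n) (C * ‖π q‖ ^ k * (1 - θ)⁻¹) :=
      (hasSum_geometric_of_lt_one h0 h1).mul_left _
    have h4 := tsum_of_norm_bounded h3 h2
    unfold Ser
    calc _ ≤ C * ‖π q‖ ^ k * (1 - θ)⁻¹ := h4
      _ = _ := by ring

end main

end Pool.Agent.W585.DQ.SERP

namespace Pool.Agent.W585.DQ

open Pool.Agent.W133.DQ SERP

theorem ser : S_SER := by
  intro E₁ E₂ V _ _ _ _ _ _ _ _ _ F a c κ k hF ha hc hc1 hκ hk hck hfix hdF haz hda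
  have hz2 : ∀ z : E₁ × E₂, (ContinuousLinearMap.snd ℝ E₁ E₂) z = 0 → z = (z.1, 0) := by
    rintro ⟨x, y⟩ h
    simp only [ContinuousLinearMap.coe_snd'] at h
    rw [h]
  have D : Dat (ContinuousLinearMap.snd ℝ E₁ E₂) (ContinuousLinearMap.inr ℝ E₁ E₂) F a c κ k := by
    refine ⟨fun y => by simp, hF, ha, hc, hc1, hκ, hk, hck, ?_, ?_, ?_, ?_⟩
    · intro z hz
      rw [hz2 z hz]
      exact hfix _
    · intro z hz w
      have h1 : HasFDerivAt (fun q => (ContinuousLinearMap.snd ℝ E₁ E₂) (F q))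
          ((ContinuousLinearMap.snd ℝ E₁ E₂).comp (fderiv ℝ F z)) z :=
        ((ContinuousLinearMap.snd ℝ E₁ E₂).hasFDerivAt (x := F z)).comp z
          ((hF.differentiable (by simp)) z).hasFDerivAt
      have h2 := ker_deriv (π := ContinuousLinearMap.snd ℝ E₁ E₂) (v := (w.1, 0)) (G0 := 0) h1
        (fun q hq => by
          rw [hz2 q hq, hfix]
          simp) hz (by simp)
      have h3 := hdF z.1 w.2
      rw [← hz2 z hz] at h3
      have h4 : w = (w.1, 0) + (0, w.2) := by simp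
      have h5 : fderiv ℝ F z w = fderiv ℝ F z (w.1, 0) + fderiv ℝ F z (0, w.2) := by
        rw [← map_add, ← h4]
      rw [h5, map_add]
      simp only [ContinuousLinearMap.coe_snd'] at *
      simp only [ContinuousLinearMap.comp_apply, ContinuousLinearMap.coe_snd'] at h2
      rw [h2, h3, zero_add]
    · intro z hz
      rw [hz2 z hz]
      exact haz _
    · intro hk2 z hz
      ext w
      · have h2 := ker_deriv (π := ContinuousLinearMap.snd ℝ E₁ E₂) (v := (w, 0)) (G0 := 0)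
          ((ha.differentiable (by simp)) z).hasFDerivAt
          (fun q hq => by
            rw [hz2 q hq, haz]) hz (by simp)
        simpa using h2
      · have h3 := hda hk2 z.1 w
        rw [← hz2 z hz] at h3
        simpa using h3
  obtain ⟨U, hU1, hU2, hU3, hU4, hU5, hU6⟩ := full D
  refine ⟨U, hU1, fun x => hU2 _ (by simp), hU3, hU4, hU5, fun x => ?_⟩
  exact hU6 (x, 0) (by simp)

end Pool.Agent.W585.DQ

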